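import Pool.Agent.X121.ZS.Fin

set_option autoImplicit false

namespace Pool.Agent.X121.ZS

open Finset Filter MeasureTheory

/-- the digit of `x` at the place `n + 1` after the point, in base `b` -/
noncomputable def digit (b n : ℕ) (x : ℝ) : ℕ := ⌊(b : ℝ) * Int.fract ((b : ℝ) ^ n * x)⌋₊

theorem cl_digit {ι : Type} (b n : ι → ℕ) (x : ℝ) (i : ι) :
    cl b (fun i => (b i : ℤ) ^ n i) x i = digit (b i) (n i) x := by
  unfold cl digit
  push_cast
  rfl

theorem unif_set {b : ℕ} (hb : 1 ≤ b) (P : Finset ℕ) (E : Finset (P → Fin b)) :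
    U.real {x | ∃ w ∈ E, ∀ n : P, digit b n x = w n} = E.card / (b : ℝ) ^ P.card := by
  classical
  have hw : ∀ w : P → Fin b, {x : ℝ | ∀ n : P, digit b n x = w n} =
      {x : ℝ | ∀ n ∈ P, dg b ((b : ℝ) ^ n * x) = if h : n ∈ P then (w ⟨n, h⟩ : ℕ) else 0} := by
    intro w
    ext x
    simp only [Set.mem_ofPred_eq]
    constructor
    · intro h n hn
      rw [dif_pos hn]
      exact h ⟨n, hn⟩
    · intro h n
      have := h n n.2
      rw [dif_pos n.2] at this
      exact this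
  have e : {x : ℝ | ∃ w ∈ E, ∀ n : P, digit b n x = w n} =
      ⋃ w ∈ E, {x : ℝ | ∀ n : P, digit b n x = w n} := by
    ext x; simp
  rw [e, measureReal_biUnion_finset]
  · have h1 : ∀ w ∈ E, U.real {x : ℝ | ∀ n : P, digit b n x = w n} = 1 / (b : ℝ) ^ P.card := by
      intro w _
      rw [hw w]
      refine digits_unif hb P _ fun n hn => ?_
      rw [dif_pos hn]
      exact (w ⟨n, hn⟩).2
    rw [Finset.sum_congr rfl h1, Finset.sum_const, nsmul_eq_mul, mul_one_div]
  · intro w _ w' _ hww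
    rw [Function.onFun, Set.disjoint_left]
    intro x hx hx'
    apply hww
    funext n
    have h1 : digit b n x = w n := hx n
    have h2 : digit b n x = w' n := hx' n
    exact Fin.ext (h1.symm.trans h2)
  · intro w _
    have : {x : ℝ | ∀ n : P, digit b n x = w n} = ⋂ n : P, {x : ℝ | digit b n x = w n} := by
      ext x; simp
    rw [this]
    refine MeasurableSet.iInter fun n => ?_
    have hm : Measurable fun x : ℝ => digit b n x :=
      (dg_meas b).comp (measurable_const_mul ((b : ℝ) ^ (n : ℕ)))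
    exact hm (measurableSet_singleton _)

open Classical in
theorem final {θ : ℝ} (hθ0 : 0 < θ) (hθ : ∀ m : ℕ, θ ≠ m) {η : ℝ} (hη : 0 < η) (hη1 : η ≤ 1) :
    ∃ N₀ : ℕ, ∀ N H : ℕ, N₀ ≤ N → (N : ℝ) ^ η ≤ H → H ≤ N → ∀ ω c : ℝ, 1 ≤ |ω| →
      |ω| ≤ Real.exp ((Real.log N) ^ (9 / 8 : ℝ)) →
      (∀ b : ℕ, 2 ≤ b → (b : ℝ) ≤ Real.exp ((Real.log N) ^ (1 / 8 : ℝ)) → ∀ P : Finset ℕ,
        (P.card : ℝ) ≤ (Real.log N) ^ (1 / 8 : ℝ) →
        (∀ n ∈ P, n * Real.log b ≤ (Real.log N) ^ (9 / 8 : ℝ)) →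
        ((∀ n ∈ P, 8 / η * Real.log N ≤ n * Real.log b) ∨
          ((N : ℝ) ^ (1 / 2 + η) ≤ H ∧ (N : ℝ) ^ (1 - θ + η) ≤ H)) →
        ∀ E : Finset (P → Fin b),
        |(((Finset.Ioc N (N + H)).filter fun m : ℕ =>
            ∃ w ∈ E, ∀ n : P, digit b n (ω * (m : ℝ) ^ θ + c) = w n).card : ℝ) / H -
          E.card / (b : ℝ) ^ P.card| ≤ Real.exp (-((Real.log N) ^ (1 / 8 : ℝ)))) ∧
      ((N : ℝ) ^ (1 / 2 + η) ≤ H → (N : ℝ) ^ (1 - θ + η) ≤ H → ∀ (k : ℕ) (b n : Fin k → ℕ),
        (k : ℝ) ≤ (Real.log N) ^ (1 / 8 : ℝ) → (∀ i, 1 ≤ b i) →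
        (∀ i, (b i : ℝ) ≤ Real.exp ((Real.log N) ^ (1 / 8 : ℝ))) →
        (∀ i, n i * Real.log (b i) ≤ (Real.log N) ^ (9 / 8 : ℝ)) → ∀ E : Set (Fin k → ℕ),
        |(((Finset.Ioc N (N + H)).filter fun m : ℕ =>
            (fun i => digit (b i) (n i) (ω * (m : ℝ) ^ θ + c)) ∈ E).card : ℝ) / H -
          volume.real {x : ℝ | x ∈ Set.Ico (0 : ℝ) 1 ∧ (fun i => digit (b i) (n i) x) ∈ E}| ≤
          Real.exp (-((Real.log N) ^ (1 / 8 : ℝ)))) := by
  obtain ⟨N₀, hN₀⟩ := main_tv hθ0 hθ hη hη1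
  refine ⟨max N₀ 1, fun N H hN hH1 hH2 ω c hω1 hω2 => ⟨?_, ?_⟩⟩
  · intro b hb2 hb P hP hn hcase E
    have hNN := hN₀ N H (le_of_max_le_left hN) hH1 hH2 ω c hω1 hω2 P (fun n => (b : ℤ) ^ (n : ℕ))
      (fun _ => b) (by rw [Fintype.card_coe]; exact hP)
      (fun i => pow_ne_zero _ (by exact_mod_cast (by omega : b ≠ 0))) ?_ (fun _ => by omega)
      (fun _ => hb) ?_ {A | ∃ w ∈ E, ∀ n : P, A n = w n}
    · have e1 : ∀ x : ℝ, (cl (fun _ : P => b) (fun n : P => (b : ℤ) ^ (n : ℕ)) x ∈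
          {A : P → ℕ | ∃ w ∈ E, ∀ n : P, A n = w n}) ↔ ∃ w ∈ E, ∀ n : P, digit b n x = w n := by
        intro x
        rw [Set.mem_ofPred_eq]
        simp only [cl_digit (fun _ : P => b) (fun n : P => (n : ℕ)) x]
      simp only [e1] at hNN
      rw [unif_set (by omega) P E] at hNN
      exact hNN
    · intro i
      push_cast
      rw [abs_of_nonneg (by positivity)]
      have hb0 : (0 : ℝ) < b := by exact_mod_cast (by omega : 0 < b)
      calc (b : ℝ) ^ (i : ℕ) = Real.exp (((i : ℕ) : ℝ) * Real.log b) := by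
            rw [← Real.log_pow, Real.exp_log (by positivity)]
        _ ≤ _ := Real.exp_le_exp.2 (hn i i.2)
    · rcases hcase with h1 | h1
      · left
        have hN0 : (0 : ℝ) < N := by
          have : 1 ≤ N := le_of_max_le_right hN
          exact_mod_cast this
        have hb0 : (0 : ℝ) < b := by exact_mod_cast (by omega : 0 < b)
        by_cases hPe : P.Nonempty
        · refine ⟨(b : ℤ) ^ (P.min' hPe), ?_, fun i => pow_dvd_pow _ (Finset.min'_le _ _ i.2)⟩
          push_cast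
          rw [abs_of_nonneg (by positivity)]
          have h2 := h1 _ (Finset.min'_mem P hPe)
          calc (N : ℝ) ^ (8 / η) = Real.exp (8 / η * Real.log N) := by
                rw [Real.rpow_def_of_pos hN0, mul_comm]
            _ ≤ Real.exp (((P.min' hPe : ℕ) : ℝ) * Real.log b) := Real.exp_le_exp.2 h2
            _ = (b : ℝ) ^ (P.min' hPe) := by
                rw [← Real.log_pow, Real.exp_log (by positivity)]
        · refine ⟨⌈(N : ℝ) ^ (8 / η)⌉, (Int.le_ceil _).trans (le_abs_self _), fun i => ?_⟩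
          exact absurd ⟨(i : ℕ), i.2⟩ hPe
      · exact Or.inr h1
  · intro h1 h2 k b n hk hb1 hb hn E
    have hNN := hN₀ N H (le_of_max_le_left hN) hH1 hH2 ω c hω1 hω2 (Fin k)
      (fun i => (b i : ℤ) ^ (n i)) b (by rw [Fintype.card_fin]; exact hk)
      (fun i => pow_ne_zero _ (by have := hb1 i; exact_mod_cast (by omega : b i ≠ 0))) ?_ hb1 hb
      (Or.inr ⟨h1, h2⟩) E
    · have e1 : ∀ x : ℝ, cl b (fun i => (b i : ℤ) ^ (n i)) x = fun i => digit (b i) (n i) x := by
        intro x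
        funext i
        exact cl_digit b n x i
      simp only [e1] at hNN
      have e2 : U.real {x : ℝ | (fun i => digit (b i) (n i) x) ∈ E} =
          volume.real {x : ℝ | x ∈ Set.Ico (0 : ℝ) 1 ∧ (fun i => digit (b i) (n i) x) ∈ E} := by
        have hms : MeasurableSet {x : ℝ | (fun i => digit (b i) (n i) x) ∈ E} := by
          have := set_meas b (fun i => (b i : ℤ) ^ (n i)) E
          simp only [e1] at this
          exact this
        unfold U Measure.real
        rw [Measure.restrict_apply hms]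
        congr 2
        ext x
        simp only [Set.mem_inter_iff, Set.mem_ofPred_eq]
        tauto
      rw [e2] at hNN
      exact hNN
    · intro i
      push_cast
      rw [abs_of_nonneg (by positivity)]
      have hb0 : (0 : ℝ) < b i := by have := hb1 i; exact_mod_cast (by omega : 0 < b i)
      calc (b i : ℝ) ^ (n i) = Real.exp ((n i : ℝ) * Real.log (b i)) := by
            rw [← Real.log_pow, Real.exp_log (by positivity)]
        _ ≤ _ := Real.exp_le_exp.2 (hn i)

end Pool.Agent.X121.ZS
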