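import Pool.Agent.X121.ZS.Tv3

set_option autoImplicit false

namespace Pool.Agent.X121.ZS

open Finset Filter MeasureTheory

/-- the first digit -/
noncomputable def dg (b : ℕ) (x : ℝ) : ℕ := ⌊(b : ℝ) * Int.fract x⌋₊

theorem dg_lt {b : ℕ} (hb : 1 ≤ b) (x : ℝ) : dg b x < b := by
  have hm0 : (0 : ℝ) < b := by exact_mod_cast hb
  unfold dg
  rw [Nat.floor_lt (by have := Int.fract_nonneg x; positivity)]
  have := Int.fract_lt_one x
  nlinarith

theorem dg_meas (b : ℕ) : Measurable (dg b) :=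
  Nat.measurable_floor.comp (measurable_fract.const_mul _)

/-- the product -/
noncomputable def Fp (b : ℕ) (N : ℕ) (f : ℕ → ℕ → ℝ) (x : ℝ) : ℝ :=
  ∏ n ∈ Finset.range N, f n (dg b ((b : ℝ) ^ n * x))

theorem Fp_succ (b N : ℕ) (f : ℕ → ℕ → ℝ) (x : ℝ) :
    Fp b (N + 1) f x = f 0 (dg b x) * Fp b N (fun n => f (n + 1)) (b * x) := by
  unfold Fp
  rw [Finset.prod_range_succ', mul_comm]
  congr 1
  · rw [pow_zero, one_mul]
  · refine Finset.prod_congr rfl fun n _ => ?_
    congr 2
    ring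

theorem Fp_per (b N : ℕ) (f : ℕ → ℕ → ℝ) : Function.Periodic (Fp b N f) 1 := by
  intro x
  unfold Fp
  refine Finset.prod_congr rfl fun n _ => ?_
  congr 1
  unfold dg
  have : (b : ℝ) ^ n * (x + 1) = (b : ℝ) ^ n * x + ((b ^ n : ℕ) : ℝ) := by push_cast; ring
  rw [this, Int.fract_add_natCast]

theorem Fp_meas (b N : ℕ) (f : ℕ → ℕ → ℝ) : Measurable (Fp b N f) := by
  unfold Fp
  refine Finset.measurable_prod _ fun n _ => ?_
  have h1 : Measurable (f n) := measurable_from_nat
  exact h1.comp ((dg_meas b).comp (measurable_const_mul _))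

theorem Fp_bdd {b : ℕ} (hb : 1 ≤ b) (N : ℕ) (f : ℕ → ℕ → ℝ) : ∃ C : ℝ, ∀ x, |Fp b N f x| ≤ C := by
  have hf : ∀ n, ∃ C : ℝ, ∀ x : ℝ, |f n (dg b x)| ≤ C := by
    intro n
    refine ⟨∑ a ∈ Finset.range b, |f n a|, fun x => ?_⟩
    exact Finset.single_le_sum (f := fun a => |f n a|) (fun _ _ => abs_nonneg _)
      (Finset.mem_range.2 (dg_lt hb x))
  choose C hC using hf
  refine ⟨∏ n ∈ Finset.range N, C n, fun x => ?_⟩
  unfold Fp
  rw [Finset.abs_prod]
  exact Finset.prod_le_prod (fun _ _ => abs_nonneg _) fun n _ => hC n _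

theorem int_of_bdd {f : ℝ → ℝ} (hf : Measurable f) {C : ℝ} (hC : ∀ x, |f x| ≤ C) (a b : ℝ) :
    IntervalIntegrable f volume a b := by
  refine (intervalIntegrable_const (c := C)).mono_fun hf.aestronglyMeasurable
    (Eventually.of_forall fun x => ?_)
  show ‖f x‖ ≤ |C|
  rw [Real.norm_eq_abs]
  exact (hC x).trans (le_abs_self C)

theorem U_eq (f : ℝ → ℝ) : ∫ x, f x ∂U = ∫ x in (0 : ℝ)..1, f x := by
  unfold U
  rw [integral_Ico_eq_integral_Ioo, ← integral_Ioc_eq_integral_Ioo,
    ← intervalIntegral.integral_of_le zero_le_one]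

theorem Fp_int {b : ℕ} (hb : 1 ≤ b) (N : ℕ) (f : ℕ → ℕ → ℝ) :
    ∫ x, Fp b N f x ∂U = ∏ n ∈ Finset.range N, ((∑ a ∈ Finset.range b, f n a) / b) := by
  induction N generalizing f with
  | zero => simp [Fp]
  | succ N ih =>
    have hb0 : (0 : ℝ) < b := by exact_mod_cast hb
    rw [Finset.prod_range_succ', ← ih (fun n => f (n + 1))]
    obtain ⟨G, hG⟩ : ∃ G : ℝ → ℝ, G = Fp b N (fun n => f (n + 1)) := ⟨_, rfl⟩
    have hGm : Measurable G := by rw [hG]; exact Fp_meas _ _ _
    have hGp : Function.Periodic G 1 := by rw [hG]; exact Fp_per _ _ _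
    obtain ⟨C, hC⟩ : ∃ C : ℝ, ∀ x, |G x| ≤ C := by rw [hG]; exact Fp_bdd hb _ _
    rw [← hG]
    obtain ⟨K, hK⟩ : ∃ K : ℝ → ℝ, K = fun u => f 0 (⌊u⌋₊ % b) * G u := ⟨_, rfl⟩
    have hKm : Measurable K := by
      rw [hK]
      have h1 : Measurable fun n : ℕ => f 0 (n % b) := measurable_from_nat
      exact (h1.comp Nat.measurable_floor).mul hGm
    have hKb : ∀ u, |K u| ≤ (∑ a ∈ Finset.range b, |f 0 a|) * C := by
      intro u
      rw [hK]
      simp only
      rw [abs_mul]
      apply mul_le_mul _ (hC u) (abs_nonneg _) (Finset.sum_nonneg fun _ _ => abs_nonneg _)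
      exact Finset.single_le_sum (f := fun a => |f 0 a|) (fun _ _ => abs_nonneg _)
        (Finset.mem_range.2 (Nat.mod_lt _ (by omega)))
    have e1 : ∫ x, Fp b (N + 1) f x ∂U = ∫ x, K (b * x) ∂U := by
      unfold U
      refine setIntegral_congr_fun measurableSet_Ico fun x hx => ?_
      show Fp b (N + 1) f x = K (b * x)
      rw [Fp_succ, hK, hG]
      show f 0 (dg b x) * _ = f 0 (⌊(b : ℝ) * x⌋₊ % b) * _
      congr 2
      have hfr : Int.fract x = x := Int.fract_eq_self.2 hx
      have h1 : dg b x = ⌊(b : ℝ) * x⌋₊ := by unfold dg; rw [hfr]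
      have h2 := dg_lt hb x
      rw [h1] at h2
      rw [h1, Nat.mod_eq_of_lt h2]
    have e2 : ∀ a ∈ Finset.range b, ∫ u in (a : ℝ)..((a + 1 : ℕ) : ℝ), K u = f 0 a * ∫ x, G x ∂U := by
      intro a ha
      have ha' := Finset.mem_range.1 ha
      have h1 : ∫ u in (a : ℝ)..((a + 1 : ℕ) : ℝ), K u = ∫ u in (a : ℝ)..((a + 1 : ℕ) : ℝ), f 0 a * G u := by
        rw [intervalIntegral.integral_of_le (by push_cast; linarith),
          intervalIntegral.integral_of_le (by push_cast; linarith),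
          integral_Ioc_eq_integral_Ioo, integral_Ioc_eq_integral_Ioo]
        refine setIntegral_congr_fun measurableSet_Ioo fun u hu => ?_
        show K u = f 0 a * G u
        rw [hK]
        show f 0 (⌊u⌋₊ % b) * G u = f 0 a * G u
        congr 2
        have h2 : ⌊u⌋₊ = a := by
          rw [Nat.floor_eq_iff (by have := hu.1; have : (0 : ℝ) ≤ a := Nat.cast_nonneg a; linarith)]
          refine ⟨hu.1.le, ?_⟩
          have := hu.2
          push_cast at this
          exact this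
        rw [h2, Nat.mod_eq_of_lt ha']
      rw [h1, intervalIntegral.integral_const_mul, U_eq]
      congr 1
      have h3 := hGp.intervalIntegral_add_eq (a : ℝ) 0
      rw [zero_add] at h3
      push_cast
      exact h3
    rw [e1, U_eq, intervalIntegral.integral_comp_mul_left _ hb0.ne', mul_zero, mul_one]
    have e3 : ∫ x in (0 : ℝ)..b, K x = ∑ a ∈ Finset.range b, ∫ u in (a : ℝ)..((a + 1 : ℕ) : ℝ), K u := by
      have := intervalIntegral.sum_integral_adjacent_intervals (f := K) (μ := volume)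
        (a := fun k : ℕ => (k : ℝ)) (n := b) (fun k _ => int_of_bdd hKm hKb _ _)
      rw [this]
      simp
    rw [e3, Finset.sum_congr rfl e2, ← Finset.sum_mul, smul_eq_mul]
    field_simp

/-- the digits of a random real number at different places are independent and uniform -/
theorem digits_unif {b : ℕ} (hb : 1 ≤ b) (P : Finset ℕ) (w : ℕ → ℕ) (hw : ∀ n ∈ P, w n < b) :
    U.real {x | ∀ n ∈ P, dg b ((b : ℝ) ^ n * x) = w n} = 1 / (b : ℝ) ^ P.card := by
  classical
  have hb0 : (0 : ℝ) < b := by exact_mod_cast hb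
  obtain ⟨N, hN⟩ : ∃ N, ∀ n ∈ P, n < N := ⟨P.sup id + 1, fun n hn =>
    Nat.lt_succ_of_le (Finset.le_sup (f := id) hn)⟩
  obtain ⟨f, hf⟩ : ∃ f : ℕ → ℕ → ℝ, f = fun n a => if n ∈ P then (if a = w n then 1 else 0) else 1 :=
    ⟨_, rfl⟩
  have h1 := Fp_int hb N f
  have hms : MeasurableSet {x : ℝ | ∀ n ∈ P, dg b ((b : ℝ) ^ n * x) = w n} := by
    have : {x : ℝ | ∀ n ∈ P, dg b ((b : ℝ) ^ n * x) = w n} =
        ⋂ n ∈ P, {x : ℝ | dg b ((b : ℝ) ^ n * x) = w n} := by
      ext x; simp
    rw [this]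
    refine Finset.measurableSet_biInter _ fun n _ => ?_
    exact ((dg_meas b).comp (measurable_const_mul ((b : ℝ) ^ n))) (measurableSet_singleton (w n))
  have e1 : ∀ x, Fp b N f x = Set.indicator {x : ℝ | ∀ n ∈ P, dg b ((b : ℝ) ^ n * x) = w n} 1 x := by
    intro x
    unfold Fp
    by_cases hx : ∀ n ∈ P, dg b ((b : ℝ) ^ n * x) = w n
    · rw [Set.indicator_of_mem (by exact hx), Pi.one_apply]
      refine Finset.prod_eq_one fun n _ => ?_
      rw [hf]
      simp only
      by_cases hn : n ∈ P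
      · rw [if_pos hn, if_pos (hx n hn)]
      · rw [if_neg hn]
    · rw [Set.indicator_of_notMem (by exact hx)]
      push Not at hx
      obtain ⟨n, hn, hne⟩ := hx
      refine Finset.prod_eq_zero (Finset.mem_range.2 (hN n hn)) ?_
      rw [hf]
      simp only
      rw [if_pos hn, if_neg hne]
  simp only [e1] at h1
  rw [integral_indicator_one hms] at h1
  rw [h1]
  have e2 : ∀ n ∈ Finset.range N, (∑ a ∈ Finset.range b, f n a) / b = if n ∈ P then 1 / (b : ℝ) else 1 := by
    intro n _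
    rw [hf]
    simp only
    by_cases hn : n ∈ P
    · simp only [if_pos hn]
      rw [Finset.sum_ite_eq' (Finset.range b) (w n) (fun _ => (1 : ℝ)),
        if_pos (Finset.mem_range.2 (hw n hn))]
    · simp only [if_neg hn]
      rw [Finset.sum_const, Finset.card_range, nsmul_eq_mul, mul_one, div_self hb0.ne']
  rw [Finset.prod_congr rfl e2, Finset.prod_ite, Finset.prod_const, Finset.prod_const_one, mul_one]
  have e3 : (Finset.range N).filter (· ∈ P) = P := by
    ext n
    simp only [Finset.mem_filter, Finset.mem_range]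
    exact ⟨fun h => h.2, fun h => ⟨hN n h, h⟩⟩
  rw [e3, div_pow, one_pow]

end Pool.Agent.X121.ZS
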