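import Pool.Agent.X121.ZS.Asm
import Pool.Agent.X121.ZS.Uni
import Pool.Agent.Y933.KD.Roots

set_option autoImplicit false

namespace Pool.Agent.X121.ZS

open Finset Filter MeasureTheory Pool.Agent.X121.AB Pool.Agent.X121.TV
open Pool.Agent.Y93.VK (ee ee_add norm_ee ee_zero ee_neg ee_eq)

theorem e_eq_ee (x : ℝ) : Pool.Agent.H469R2.NK.e x = ee x := by
  unfold Pool.Agent.H469R2.NK.e
  rw [ee_eq]
  congr 1
  push_cast
  ring

theorem sum_reindex (F : ℕ → ℂ) (N H : ℕ) :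
    ∑ m ∈ Finset.Ioc N (N + H), F m = ∑ b ∈ Finset.Icc 1 H, F (N + b) := by
  have : Finset.Ioc N (N + H) = (Finset.Icc 1 H).image (fun b => N + b) := by
    ext m
    simp only [Finset.mem_Ioc, Finset.mem_image, Finset.mem_Icc]
    constructor
    · rintro ⟨h1, h2⟩
      exact ⟨m - N, by omega, by omega⟩
    · rintro ⟨b, h1, rfl⟩
      omega
  rw [this, Finset.sum_image (by intro a _ b _ h; simpa using h)]

theorem norm_neg_sum (S : Finset ℕ) (f : ℝ) (g : ℕ → ℝ) :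
    ‖∑ m ∈ S, ee (-f * g m)‖ = ‖∑ m ∈ S, ee (f * g m)‖ := by
  have h1 : ∀ t : ℝ, ee (-t) = (starRingEnd ℂ) (ee t) := by
    intro t
    rw [ee_eq, ee_eq, ← Complex.exp_conj]
    congr 1
    simp only [map_mul, Complex.conj_ofReal, Complex.conj_I]
    push_cast
    try simp
    try ring
  have h2 : ∑ m ∈ S, ee (-f * g m) = (starRingEnd ℂ) (∑ m ∈ S, ee (f * g m)) := by
    rw [map_sum]
    refine Finset.sum_congr rfl fun m _ => ?_
    rw [← h1]
    congr 1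
    ring
  rw [h2, Complex.norm_conj]

/-- all the ranges together -/
theorem allsum {θ : ℝ} (hθ0 : 0 < θ) (hθ : ∀ m : ℕ, θ ≠ m) {η : ℝ} (hη : 0 < η) (hη1 : η ≤ 1) :
    ∀ᶠ y : ℝ in atTop, ∀ N : ℕ, (N : ℝ) = Real.exp (y ^ 70) → ∀ H : ℕ, (N : ℝ) ^ η ≤ H → H ≤ N →
      ∀ f : ℝ, (Real.exp (8 / η * y ^ 70) ≤ |f| ∨
        (1 ≤ |f| ∧ (N : ℝ) ^ (1 / 2 + η) ≤ H ∧ (N : ℝ) ^ (1 - θ + η) ≤ H)) →
      |f| ≤ Real.exp (y ^ 79) →
      ‖∑ m ∈ Finset.Ioc N (N + H), ee (f * (m : ℝ) ^ θ)‖ ≤ Real.exp (-(y ^ 20)) * H := by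
  obtain ⟨μ, hμ, hμ1, M0, hr⟩ := Pool.Agent.Y933.KD.range_ok hθ0 hη
  obtain ⟨ρ, hρ, M1, hp⟩ := Pool.Agent.Y933.KD.VdC.pow_sum hθ 32 μ hμ hμ1
  filter_upwards [zsum hθ0 hθ hη hη1, zsum hθ0 hθ (η := 1 / 2) (by norm_num) (by norm_num),
    eventually_ge_atTop (1 : ℝ), eventually_ge_atTop ((M0 : ℝ) + M1),
    ev_pow_ge 1 (ρ / 2) (by positivity) 50 (by norm_num), eventually_ge_atTop (2 : ℝ)] with
    y h1 h2 hy1 hy2 hy3 hy4
  intro N hN H hH1 hH2 f hf1 hf2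
  have hy0 : (0 : ℝ) < y := by linarith
  have hrw : ∀ z : ℝ, (N : ℝ) ^ z = Real.exp (z * y ^ 70) := by
    intro z
    rw [hN, ← Real.exp_mul, mul_comm]
  rw [sum_reindex, mul_comm]
  rcases hf1 with hf1 | ⟨hf1, hH3, hH4⟩
  · exact h1 N hN H (by rw [← hrw]; exact hH1) hH2 f hf1 hf2
  · rcases le_or_gt (Real.exp (8 / (1 / 2) * y ^ 70)) |f| with h3 | h3
    · refine h2 N hN H ?_ hH2 f h3 hf2
      rw [← hrw]
      refine le_trans ?_ hH3
      rw [hrw, hrw]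
      apply Real.exp_le_exp.2
      gcongr
      linarith
    · -- van der Corput
      have hH5 : Real.exp (1 / 2 * y ^ 70) ≤ H := by
        rw [← hrw]
        refine le_trans ?_ hH3
        rw [hrw, hrw]
        apply Real.exp_le_exp.2
        gcongr
        linarith
      have hy70 : y ≤ y ^ 70 := le_self_pow₀ hy1 (by norm_num)
      have hHM : M0 + M1 ≤ H := by
        have h4 : ((M0 + M1 : ℕ) : ℝ) ≤ H := by
          push_cast
          have h5 : y * 2 ≤ y ^ 70 := by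
            calc y * 2 ≤ y * y ^ 69 := by
                  gcongr
                  calc (2 : ℝ) ≤ y := hy4
                    _ ≤ y ^ 69 := le_self_pow₀ hy1 (by norm_num)
              _ = y ^ 70 := by ring
          have h6 := Real.add_one_le_exp (1 / 2 * y ^ 70)
          linarith
        exact_mod_cast h4
      obtain ⟨h5, h6⟩ := hr H (by omega) N hH3 hH4
      have hH0 : (0 : ℝ) < H := lt_of_lt_of_le (Real.exp_pos _) hH5
      have hfH : |f| ≤ (H : ℝ) ^ (32 : ℝ) := by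
        calc |f| ≤ Real.exp (8 / (1 / 2) * y ^ 70) := h3.le
          _ = (Real.exp (1 / 2 * y ^ 70)) ^ (32 : ℝ) := by
              rw [← Real.exp_mul]; congr 1; ring
          _ ≤ (H : ℝ) ^ (32 : ℝ) := Real.rpow_le_rpow (Real.exp_nonneg _) hH5 (by norm_num)
      have h7 := hp H (by omega) N h5 h6 |f| hf1 hfH
      simp only [e_eq_ee] at h7
      have h8 : ‖∑ m ∈ Finset.Ioc N (N + H), ee (|f| * (m : ℝ) ^ θ)‖ =
          ‖∑ m ∈ Finset.Ioc N (N + H), ee (f * (m : ℝ) ^ θ)‖ := by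
        rcases le_total 0 f with h | h
        · rw [abs_of_nonneg h]
        · rw [abs_of_nonpos h]
          exact norm_neg_sum _ _ _
      rw [h8, sum_reindex] at h7
      refine h7.trans ?_
      rw [sub_eq_add_neg, Real.rpow_add hH0, Real.rpow_one]
      gcongr
      calc (H : ℝ) ^ (-ρ) ≤ (Real.exp (1 / 2 * y ^ 70)) ^ (-ρ) :=
            Real.rpow_le_rpow_of_nonpos (Real.exp_pos _) hH5 (by linarith)
        _ = Real.exp (-(ρ / 2 * y ^ 50 * y ^ 20)) := by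
            rw [← Real.exp_mul]; congr 1; ring
        _ ≤ Real.exp (-(y ^ 20)) := by
            apply Real.exp_le_exp.2
            have h9 : 1 * y ^ 20 ≤ ρ / 2 * y ^ 50 * y ^ 20 := by gcongr
            linarith

/-- from `y` to `log N` -/
theorem to_log2 {Q : ℝ → ℕ → Prop} (h : ∀ᶠ y : ℝ in atTop, ∀ N : ℕ, (N : ℝ) = Real.exp (y ^ 70) → Q y N)
    (Y₀ : ℝ) :
    ∃ N₀ : ℕ, ∀ N : ℕ, N₀ ≤ N → ∃ y : ℝ, Y₀ ≤ y ∧ 1 ≤ y ∧ (N : ℝ) = Real.exp (y ^ 70) ∧ Q y N ∧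
      (Real.log N) ^ (1 / 8 : ℝ) = y ^ (35 / 4 : ℝ) ∧ (Real.log N) ^ (9 / 8 : ℝ) = y ^ (315 / 4 : ℝ) := by
  have h1 : Tendsto (fun B : ℕ => (Real.log B) ^ (1 / 70 : ℝ)) atTop atTop :=
    (tendsto_rpow_atTop (by norm_num)).comp (Real.tendsto_log_atTop.comp tendsto_natCast_atTop_atTop)
  have h2 := ((h1.eventually h).and (h1.eventually (eventually_ge_atTop Y₀))).and
    ((eventually_ge_atTop 1).and (h1.eventually (eventually_ge_atTop 1)))
  obtain ⟨H₀, hH₀⟩ := eventually_atTop.1 h2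
  refine ⟨H₀, fun H hH => ?_⟩
  obtain ⟨⟨hB, hpos⟩, hB3, hpos'⟩ := hH₀ H hH
  have hB0 : (0 : ℝ) < H := by exact_mod_cast (by omega : 0 < H)
  have hlog : 0 ≤ Real.log H := Real.log_nonneg (by exact_mod_cast (by omega : 1 ≤ H))
  have e : ((Real.log H) ^ (1 / 70 : ℝ)) ^ 70 = Real.log H := by
    rw [← Real.rpow_natCast, ← Real.rpow_mul hlog]
    norm_num
  have e2 : (H : ℝ) = Real.exp (((Real.log H) ^ (1 / 70 : ℝ)) ^ 70) := by rw [e, Real.exp_log hB0]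
  refine ⟨(Real.log H) ^ (1 / 70 : ℝ), hpos, hpos', e2, hB H e2, ?_, ?_⟩
  · rw [← Real.rpow_mul hlog]
    norm_num
  · rw [← Real.rpow_mul hlog]
    norm_num

open Classical in
/-- the main estimate -/
theorem main_tv {θ : ℝ} (hθ0 : 0 < θ) (hθ : ∀ m : ℕ, θ ≠ m) {η : ℝ} (hη : 0 < η) (hη1 : η ≤ 1) :
    ∃ N₀ : ℕ, ∀ N H : ℕ, N₀ ≤ N → (N : ℝ) ^ η ≤ H → H ≤ N → ∀ ω c : ℝ, 1 ≤ |ω| →
      |ω| ≤ Real.exp ((Real.log N) ^ (9 / 8 : ℝ)) → ∀ (ι : Type) [Fintype ι] (q : ι → ℤ) (m : ι → ℕ),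
      (Fintype.card ι : ℝ) ≤ (Real.log N) ^ (1 / 8 : ℝ) → (∀ i, q i ≠ 0) →
      (∀ i, (|q i| : ℝ) ≤ Real.exp ((Real.log N) ^ (9 / 8 : ℝ))) →
      (∀ i, 1 ≤ m i) → (∀ i, (m i : ℝ) ≤ Real.exp ((Real.log N) ^ (1 / 8 : ℝ))) →
      ((∃ Q : ℤ, (N : ℝ) ^ (8 / η) ≤ |(Q : ℝ)| ∧ ∀ i, Q ∣ q i) ∨
        ((N : ℝ) ^ (1 / 2 + η) ≤ H ∧ (N : ℝ) ^ (1 - θ + η) ≤ H)) → ∀ E : Set (ι → ℕ),
      |(((Finset.Ioc N (N + H)).filter fun b : ℕ => cl m q (ω * (b : ℝ) ^ θ + c) ∈ E).card : ℝ) / H -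
        U.real {x | cl m q x ∈ E}| ≤ Real.exp (-((Real.log N) ^ (1 / 8 : ℝ))) := by
  obtain ⟨N₀, hN₀⟩ := to_log2 ((tv_asm.and (allsum hθ0 hθ hη hη1)).mono
    fun y h N _ => h) 256
  refine ⟨N₀, fun N H hN hH1 hH2 ω c hω1 hω2 ι _ q m hD hq0 hq hm1 hm hcase E => ?_⟩
  obtain ⟨y, hy256, hy1, hNy, ⟨htv, hsum⟩, e1, e2⟩ := hN₀ N hN
  have hy0 : (0 : ℝ) < y := by linarith
  rw [e1] at hD hm ⊢
  rw [e2] at hω2 hq
  obtain ⟨A, hA⟩ : ∃ A : ℝ, A = y ^ (315 / 4 : ℝ) := ⟨_, rfl⟩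
  rw [← hA] at hω2 hq
  have hH0 : (0 : ℝ) < H := by
    refine lt_of_lt_of_le ?_ hH1
    have : (0 : ℝ) < N := by rw [hNy]; exact Real.exp_pos _
    positivity
  have hH0' : 1 ≤ H := by
    have : 0 < H := by exact_mod_cast hH0
    omega
  have h9 : y ^ (35 / 4 : ℝ) ≤ y ^ 9 := by
    rw [← Real.rpow_natCast]
    exact Real.rpow_le_rpow_of_exponent_le hy1 (by norm_num)
  have h79 : 4 * A ≤ y ^ 79 := by
    have h1 : (4 : ℝ) ≤ y ^ (1 / 4 : ℝ) := by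
      calc (4 : ℝ) = (256 : ℝ) ^ (1 / 4 : ℝ) := by
            rw [show (256 : ℝ) = 4 ^ (4 : ℝ) by norm_num, ← Real.rpow_mul (by norm_num)]
            norm_num
        _ ≤ y ^ (1 / 4 : ℝ) := Real.rpow_le_rpow (by norm_num) hy256 (by norm_num)
    calc 4 * A ≤ y ^ (1 / 4 : ℝ) * A := by
          gcongr
          rw [hA]; positivity
      _ = y ^ 79 := by
          rw [hA, ← Real.rpow_add hy0, ← Real.rpow_natCast]
          norm_num
  have hA10 : y ^ 9 + y ^ 10 ≤ 2 * A := by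
    have h1 : y ^ 10 ≤ A := by
      rw [hA, ← Real.rpow_natCast]
      exact Real.rpow_le_rpow_of_exponent_le hy1 (by norm_num)
    have h2 : y ^ 9 ≤ y ^ 10 := pow_le_pow_right₀ hy1 (by norm_num)
    linarith
  have hmain := htv (Finset.Ioc N (N + H)) (fun b => ω * (b : ℝ) ^ θ + c) ι q m
    (by rw [Finset.nonempty_Ioc]; omega) (hD.trans h9) hq0 hm1
    (fun i => (hm i).trans (Real.exp_le_exp.2 h9)) ?_ E
  · rw [Nat.card_Ioc, Nat.add_sub_cancel_left] at hmain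
    refine hmain.trans (Real.exp_le_exp.2 ?_)
    linarith
  · intro h hh h0
    rw [Nat.card_Ioc, Nat.add_sub_cancel_left]
    have hshift : ∑ b ∈ Finset.Ioc N (N + H), ee ((fr q h : ℝ) * (ω * (b : ℝ) ^ θ + c)) =
        ee ((fr q h : ℝ) * c) * ∑ b ∈ Finset.Ioc N (N + H), ee (((fr q h : ℝ) * ω) * (b : ℝ) ^ θ) := by
      rw [Finset.mul_sum]
      refine Finset.sum_congr rfl fun b _ => ?_
      rw [← ee_add]
      congr 1
      ring
    rw [hshift, norm_mul, norm_ee, one_mul]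
    have hfr1 : (1 : ℝ) ≤ |(fr q h : ℝ)| := by
      have := Int.one_le_abs h0
      exact_mod_cast this
    refine hsum N hNy H hH1 hH2 _ ?_ ?_
    · rcases hcase with ⟨Q, hQ1, hQ2⟩ | ⟨h1, h2⟩
      · left
        have h3 : Q ∣ fr q h := by
          unfold fr
          exact Finset.dvd_sum fun i _ => Dvd.dvd.mul_left (hQ2 i) _
        have h4 : |Q| ≤ |fr q h| := by
          have := Int.le_of_dvd (abs_pos.2 h0) ((abs_dvd_abs Q (fr q h)).2 h3)
          exact this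
        have h5 : |(Q : ℝ)| ≤ |(fr q h : ℝ)| := by exact_mod_cast h4
        rw [abs_mul]
        have h6 : (N : ℝ) ^ (8 / η) = Real.exp (8 / η * y ^ 70) := by
          rw [hNy, ← Real.exp_mul, mul_comm]
        rw [← h6]
        calc (N : ℝ) ^ (8 / η) ≤ |(fr q h : ℝ)| * 1 := by rw [mul_one]; linarith
          _ ≤ |(fr q h : ℝ)| * |ω| := by gcongr
      · right
        refine ⟨?_, h1, h2⟩
        rw [abs_mul]
        nlinarith
    · rw [abs_mul]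
      have h1 : |(fr q h : ℝ)| ≤ Real.exp (y ^ 9) * (Real.exp (y ^ 10) * Real.exp A) := by
        unfold fr
        push_cast
        calc |∑ i, (h i : ℝ) * (q i : ℝ)| ≤ ∑ i, |(h i : ℝ) * (q i : ℝ)| := Finset.abs_sum_le_sum_abs _ _
          _ ≤ ∑ i : ι, (Real.exp (y ^ 10) * Real.exp A) := by
              refine Finset.sum_le_sum fun i _ => ?_
              rw [abs_mul]
              exact mul_le_mul (hh i) (hq i) (abs_nonneg _) (Real.exp_nonneg _)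
          _ = Fintype.card ι * (Real.exp (y ^ 10) * Real.exp A) := by
              rw [Finset.sum_const, Finset.card_univ, nsmul_eq_mul]
          _ ≤ _ := by
              gcongr
              have h2 := Real.add_one_le_exp (y ^ 9)
              linarith
      calc |(fr q h : ℝ)| * |ω| ≤ (Real.exp (y ^ 9) * (Real.exp (y ^ 10) * Real.exp A)) * Real.exp A := by
            gcongr
        _ = Real.exp (y ^ 9 + (y ^ 10 + A) + A) := by
            rw [Real.exp_add, Real.exp_add, Real.exp_add]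
        _ ≤ Real.exp (y ^ 79) := by
            apply Real.exp_le_exp.2
            linarith

end Pool.Agent.X121.ZS
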