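import Pool.Agent.X121.ZS.Sum

set_option autoImplicit false

namespace Pool.Agent.X121.ZS

open Finset Pool.Agent.Y957.VK Filter Pool.Agent.X121.AB
open Pool.Agent.Y93.VK (ee ee_add norm_ee)

/-- the factor of the good index -/
theorem WJ_num {θ C c μ : ℝ} (hθ0 : 0 < θ) (hC : ∀ j, |bc θ j| ≤ C) (hc0 : 0 < c)
    (hc : ∀ j : ℕ, c ^ j / j.factorial ≤ |bc θ j|) (hμ : 0 < μ) (hμ1 : μ ≤ 1 / 4) :
    ∀ᶠ y : ℝ in atTop, ∀ (κ f Nr : ℝ) (n d r M : ℕ), Nr = Real.exp (y ^ 70) →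
      |f| * Nr ^ θ = Real.exp (κ * y ^ 70) → Nr ≤ n → (n : ℝ) ≤ 2 * Nr →
      Real.exp (μ * y ^ 70) / 2 ≤ M → (M : ℝ) ≤ Real.exp (μ * y ^ 70) →
      κ + 1 / 10 ≤ d * (1 - μ) → d * (1 - 2 * μ) ≤ κ - 1 / 10 → 1 ≤ d → (d : ℝ) ≤ y ^ 10 →
      2 ≤ r → (r : ℝ) ≤ y ^ 10 → 1 ≤ M →
      WJ (r ^ 2 + r * (r * ⌈y⌉₊)) M d (aj θ f n d) ≤
        (((3 * ((r ^ 2 + r * (r * ⌈y⌉₊)) * M ^ d) : ℕ) : ℝ)) ^ 2 * Real.exp (-(μ / 5 * y ^ 70)) := by
  filter_upwards [eventually_ge_atTop (2 : ℝ), ev_exp_pow (C * 2 ^ θ * 3) (1 / 10) (by norm_num) 21 70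
    (by norm_num) (ε := 1 / 2) (by norm_num), ev_pow_ge 4 (4 * μ / 5) (by positivity) 70 (by norm_num),
    ev_pow_ge (8 / c + 100) (1 / 20) (by norm_num) 59 (by norm_num)] with y hy2 hy3 hy4 hy5
  intro κ f Nr n d r M hNr hf hn1 hn2 hM1 hM2 hd1 hd2 hd hdy hr2 hry hM
  have hy0 : (0 : ℝ) < y := by linarith
  have hy1 : (1 : ℝ) ≤ y := by linarith
  have yp : ∀ a b : ℕ, a ≤ b → y ^ a ≤ y ^ b := fun a b hab => pow_le_pow_right₀ hy1 hab
  have hy1' : ∀ a : ℕ, 1 ≤ y ^ a := fun a => one_le_pow₀ hy1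
  have hC0 : 0 ≤ C := (abs_nonneg _).trans (hC 0)
  obtain ⟨K, hK⟩ : ∃ K : ℕ, K = ⌈y⌉₊ := ⟨_, rfl⟩
  have hK2 : (K : ℝ) ≤ 2 * y := by
    have := Nat.ceil_lt_add_one hy0.le
    rw [← hK] at this
    linarith
  rw [← hK]
  obtain ⟨s, hs⟩ : ∃ s : ℕ, s = r ^ 2 + r * (r * K) := ⟨_, rfl⟩
  have hs1 : 1 ≤ s := by rw [hs]; have : 1 ≤ r ^ 2 := Nat.one_le_pow _ _ (by omega); omega
  have hsR : (s : ℝ) ≤ 3 * y ^ 21 := by
    have hr0 : (0 : ℝ) ≤ r := Nat.cast_nonneg r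
    have hm : (((r * K : ℕ)) : ℝ) ≤ 2 * y ^ 11 := by
      push_cast
      calc (r : ℝ) * K ≤ y ^ 10 * (2 * y) := mul_le_mul hry hK2 (Nat.cast_nonneg _) (by positivity)
        _ = 2 * y ^ 11 := by ring
    have e : (s : ℝ) = (r : ℝ) ^ 2 + r * ((r * K : ℕ) : ℝ) := by rw [hs]; push_cast; ring
    rw [e]
    have h1 : (r : ℝ) ^ 2 ≤ y ^ 21 := by
      calc (r : ℝ) ^ 2 ≤ (y ^ 10) ^ 2 := pow_le_pow_left₀ hr0 hry 2
        _ = y ^ 20 := by ring
        _ ≤ y ^ 21 := yp _ _ (by norm_num)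
    have h2 : (r : ℝ) * ((r * K : ℕ) : ℝ) ≤ 2 * y ^ 21 := by
      calc (r : ℝ) * ((r * K : ℕ) : ℝ) ≤ y ^ 10 * (2 * y ^ 11) :=
            mul_le_mul hry hm (Nat.cast_nonneg _) (by positivity)
        _ = 2 * y ^ 21 := by ring
    linarith
  rw [← hs]
  obtain ⟨hne, hup, hlow⟩ := coeff_num (s := s) hθ0 hC hc0 hc (by positivity) hNr hf hn1 hn2 hM1 hM2 hd1 hd2
  have h1 : |aj θ f n d| * (s * M ^ d : ℕ) ≤ 1 / 2 := by
    refine hup.trans ?_
    calc C * 2 ^ θ * s * Real.exp (-(y ^ 70 / 10)) ≤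
        C * 2 ^ θ * (3 * y ^ 21) * Real.exp (-(y ^ 70 / 10)) := by gcongr
      _ = C * 2 ^ θ * 3 * y ^ 21 * Real.exp (-(1 / 10 * y ^ 70)) := by
          rw [show y ^ 70 / 10 = 1 / 10 * y ^ 70 by ring]; ring
      _ ≤ 1 / 2 := hy3
  refine (WJ_good hs1 hM hd hne h1 hlow).trans ?_
  apply mul_le_mul_of_nonneg_left _ (by positivity)
  have hM0 : (0 : ℝ) < M := by exact_mod_cast hM
  -- the first term
  have t1 : 1 / (M : ℝ) ≤ Real.exp (-(μ / 5 * y ^ 70)) / 2 := by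
    have h2 : 1 / (M : ℝ) ≤ 1 / (Real.exp (μ * y ^ 70) / 2) :=
      one_div_le_one_div_of_le (by positivity) hM1
    have h3 : (4 : ℝ) ≤ Real.exp (4 * μ / 5 * y ^ 70) := by
      have := Real.add_one_le_exp (4 * μ / 5 * y ^ 70)
      linarith
    have h4 : Real.exp (μ * y ^ 70) = Real.exp (μ / 5 * y ^ 70) * Real.exp (4 * μ / 5 * y ^ 70) := by
      rw [← Real.exp_add]; congr 1; ring
    refine h2.trans ?_
    rw [h4, Real.exp_neg]
    rw [div_le_div_iff₀ (by positivity) (by positivity)]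
    have h5 : 0 < Real.exp (μ / 5 * y ^ 70) := Real.exp_pos _
    rw [one_mul]
    have h6 : (Real.exp (μ / 5 * y ^ 70))⁻¹ * (Real.exp (μ / 5 * y ^ 70) *
        Real.exp (4 * μ / 5 * y ^ 70) / 2) = Real.exp (4 * μ / 5 * y ^ 70) / 2 := by
      field_simp
    rw [h6]
    linarith
  -- the second term
  have hlog : Real.log ((s * M ^ d : ℕ) : ℝ) ≤ 3 * y ^ 21 + y ^ 80 := by
    have hs0 : (0 : ℝ) < s := by exact_mod_cast hs1
    push_cast
    rw [Real.log_mul hs0.ne' (by positivity), Real.log_pow]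
    have h2 : Real.log s ≤ s := (Real.log_le_sub_one_of_pos hs0).trans (by linarith)
    have h3 : Real.log M ≤ μ * y ^ 70 := by
      rw [Real.log_le_iff_le_exp hM0]
      exact hM2
    have h4 : (d : ℝ) * Real.log M ≤ y ^ 10 * (μ * y ^ 70) := by
      have : 0 ≤ Real.log (M : ℝ) := Real.log_nonneg (by exact_mod_cast hM)
      gcongr
    have h5 : y ^ 10 * (μ * y ^ 70) ≤ y ^ 80 := by
      calc y ^ 10 * (μ * y ^ 70) = μ * y ^ 80 := by ring
        _ ≤ 1 * y ^ 80 := by gcongr; linarith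
        _ = y ^ 80 := one_mul _
    linarith
  have hfac : (d.factorial : ℝ) ≤ Real.exp (10 * y ^ 11) := by
    calc (d.factorial : ℝ) ≤ (d : ℝ) ^ d := by exact_mod_cast Nat.factorial_le_pow d
      _ ≤ (Real.exp (10 * y)) ^ d := by
          apply pow_le_pow_left₀ (Nat.cast_nonneg _)
          calc (d : ℝ) ≤ y ^ 10 := hdy
            _ ≤ (Real.exp y) ^ 10 := by
                apply pow_le_pow_left₀ hy0.le
                have := Real.add_one_le_exp y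
                linarith
            _ = Real.exp (10 * y) := by rw [← Real.exp_nat_mul]; norm_num
      _ = Real.exp (d * (10 * y)) := by rw [← Real.exp_nat_mul]
      _ ≤ Real.exp (10 * y ^ 11) := by
          apply Real.exp_le_exp.2
          calc (d : ℝ) * (10 * y) ≤ y ^ 10 * (10 * y) := by gcongr
            _ = 10 * y ^ 11 := by ring
  have hpc : (8 / c) ^ d ≤ Real.exp (8 / c * y ^ 11) := by
    calc (8 / c) ^ d ≤ (Real.exp (8 / c)) ^ d := by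
          apply pow_le_pow_left₀ (by positivity)
          have := Real.add_one_le_exp (8 / c)
          linarith
      _ = Real.exp (d * (8 / c)) := by rw [← Real.exp_nat_mul]
      _ ≤ Real.exp (8 / c * y ^ 11) := by
          apply Real.exp_le_exp.2
          have := yp 10 11 (by norm_num)
          have h3 : (0 : ℝ) < 8 / c := by positivity
          calc (d : ℝ) * (8 / c) ≤ y ^ 11 * (8 / c) := by gcongr; linarith
            _ = _ := by ring
  have h80 : 1 + (3 * y ^ 21 + y ^ 80) ≤ Real.exp (85 * y ^ 11) / 2 := by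
    have h2 := yp 21 80 (by norm_num)
    have h3 := hy1' 80
    have h4 : y ^ 80 ≤ Real.exp (80 * y) := by
      calc y ^ 80 ≤ (Real.exp y) ^ 80 := by
            apply pow_le_pow_left₀ hy0.le
            have := Real.add_one_le_exp y
            linarith
        _ = Real.exp (80 * y) := by rw [← Real.exp_nat_mul]; norm_num
    have h5 : (10 : ℝ) ≤ Real.exp (5 * y) := by
      have := Real.add_one_le_exp (5 * y)
      linarith
    have h6 : 80 * y + 5 * y ≤ 85 * y ^ 11 := by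
      have := yp 1 11 (by norm_num)
      rw [pow_one] at this
      linarith
    have h7 : Real.exp (80 * y) * 10 ≤ Real.exp (85 * y ^ 11) := by
      calc Real.exp (80 * y) * 10 ≤ Real.exp (80 * y) * Real.exp (5 * y) := by gcongr
        _ = Real.exp (80 * y + 5 * y) := by rw [Real.exp_add]
        _ ≤ _ := Real.exp_le_exp.2 h6
    linarith
  have t2 : (8 / c) ^ d * d.factorial * Real.exp (-(y ^ 70 / 10)) *
      (1 + Real.log ((s * M ^ d : ℕ) : ℝ)) ≤ Real.exp (-(μ / 5 * y ^ 70)) / 2 := by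
    calc _ ≤ Real.exp (8 / c * y ^ 11) * Real.exp (10 * y ^ 11) * Real.exp (-(y ^ 70 / 10)) *
          (Real.exp (85 * y ^ 11) / 2) := by
          have h0 : 0 ≤ Real.log ((s * M ^ d : ℕ) : ℝ) := by
            apply Real.log_nonneg
            have : 1 ≤ s * M ^ d := Nat.mul_pos hs1 (pow_pos hM d)
            exact_mod_cast this
          gcongr
          linarith
      _ = Real.exp (8 / c * y ^ 11 + 10 * y ^ 11 + (-(y ^ 70 / 10)) + 85 * y ^ 11) / 2 := by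
          rw [Real.exp_add, Real.exp_add, Real.exp_add]; ring
      _ ≤ _ := by
          gcongr
          have h2 : (8 / c + 100) * y ^ 11 ≤ 1 / 20 * y ^ 59 * y ^ 11 := by gcongr
          have h3 : 1 / 20 * y ^ 59 * y ^ 11 = 1 / 20 * y ^ 70 := by ring
          rw [h3] at h2
          have h4 : μ / 5 * y ^ 70 ≤ 1 / 20 * y ^ 70 :=
            mul_le_mul_of_nonneg_right (by linarith) (by positivity)
          have h5 : 0 < y ^ 11 := by positivity
          linarith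
  linarith

/-- the bound for the sums of `e (f m^θ)` -/
theorem zsum {θ : ℝ} (hθ0 : 0 < θ) (hθ : ∀ m : ℕ, θ ≠ m) {η : ℝ} (hη : 0 < η) (hη1 : η ≤ 1) :
    ∀ᶠ y : ℝ in atTop, ∀ N : ℕ, (N : ℝ) = Real.exp (y ^ 70) → ∀ H : ℕ,
      Real.exp (η * y ^ 70) ≤ H → H ≤ N → ∀ f : ℝ, Real.exp (8 / η * y ^ 70) ≤ |f| →
      |f| ≤ Real.exp (y ^ 79) →
      ‖∑ b ∈ Finset.Icc 1 H, ee (f * ((N + b : ℕ) : ℝ) ^ θ)‖ ≤ H * Real.exp (-(y ^ 20)) := by
  obtain ⟨C, hC1, hC⟩ := bc_le θ hθ0.le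
  obtain ⟨c, hc0, -, hc⟩ := bc_ge θ hθ
  have hμ : 0 < η / 4 := by positivity
  have hμ1 : η / 4 ≤ 1 / 4 := by linarith
  filter_upwards [WJ_num hθ0 hC hc0 hc hμ hμ1, TT_sm (κ := η / 4 / 5) (by positivity),
    eventually_ge_atTop (8 : ℝ), eventually_ge_atTop (θ : ℝ),
    ev_exp_pow (2 * Real.pi * (2 ^ θ * (2 * C))) (3 / 2) (by norm_num) 0 70 (by norm_num) (ε := 1)
      (by norm_num), ev_pow_ge 2 (η / 4) (by positivity) 70 (by norm_num),
    ev_pow_ge 8 (η / 2) (by positivity) 50 (by norm_num)] with y hW hT hy8 hyθ hyE hyM hyη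
  intro N hN H hH1 hH2 f hf1 hf2
  have hy0 : (0 : ℝ) < y := by linarith
  have hy1 : (1 : ℝ) ≤ y := by linarith
  have yp : ∀ a b : ℕ, a ≤ b → y ^ a ≤ y ^ b := fun a b hab => pow_le_pow_right₀ hy1 hab
  have hy1' : ∀ a : ℕ, 1 ≤ y ^ a := fun a => one_le_pow₀ hy1
  obtain ⟨ℓ, hℓ⟩ : ∃ ℓ : ℝ, ℓ = y ^ 70 := ⟨_, rfl⟩
  have hℓ0 : 0 < ℓ := by rw [hℓ]; positivity
  have hN0 : (0 : ℝ) < N := by rw [hN]; exact Real.exp_pos _
  have hN1 : 1 ≤ N := by
    have : 0 < N := by exact_mod_cast hN0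
    omega
  have hf0 : 0 < |f| := lt_of_lt_of_le (Real.exp_pos _) hf1
  -- `κ`
  obtain ⟨κ, hκ⟩ : ∃ κ : ℝ, κ = (Real.log |f| + θ * ℓ) / ℓ := ⟨_, rfl⟩
  have hκℓ : κ * ℓ = Real.log |f| + θ * ℓ := by rw [hκ]; field_simp
  have hfκ : |f| * (N : ℝ) ^ θ = Real.exp (κ * y ^ 70) := by
    rw [← hℓ, hκℓ, Real.exp_add, Real.exp_log hf0, hN, ← hℓ, ← Real.exp_mul, mul_comm ℓ θ]
  have hlogf1 : 8 / η * ℓ ≤ Real.log |f| := by
    rw [Real.le_log_iff_exp_le hf0, hℓ]; exact hf1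
  have hlogf2 : Real.log |f| ≤ y ^ 9 * ℓ := by
    rw [Real.log_le_iff_le_exp hf0, hℓ]
    calc |f| ≤ Real.exp (y ^ 79) := hf2
      _ = _ := by congr 1; ring
  have hκ1 : 2 / (η / 4) ≤ κ := by
    have e : 2 / (η / 4) = 8 / η := by field_simp; ring
    rw [e, hκ, le_div_iff₀ hℓ0]
    have : 0 < θ * ℓ := by positivity
    linarith
  have hκ2 : κ ≤ 2 * y ^ 9 := by
    rw [hκ, div_le_iff₀ hℓ0]
    have h1 : θ * ℓ ≤ y ^ 9 * ℓ := by
      have h2 := yp 1 9 (by norm_num)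
      rw [pow_one] at h2
      gcongr
      linarith
    linarith
  have hκ0 : 0 < κ := lt_of_lt_of_le (by positivity) hκ1
  obtain ⟨d, hd1, hd2, hd3, hd4⟩ := exists_index hμ hμ1 hκ1
  obtain ⟨r, hr⟩ : ∃ r : ℕ, r = ⌈2 * κ⌉₊ + 4 := ⟨_, rfl⟩
  have hrge : 2 * κ + 4 ≤ r := by
    have := Nat.le_ceil (2 * κ)
    rw [hr]; push_cast; linarith
  have hrle : (r : ℝ) ≤ y ^ 10 := by
    have h1 := Nat.ceil_lt_add_one (a := 2 * κ) (by linarith)
    have h2 : (r : ℝ) ≤ 2 * κ + 5 := by rw [hr]; push_cast; linarith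
    have h3 := hy1' 9
    have h4 : 8 * y ^ 9 ≤ y ^ 10 := by
      calc 8 * y ^ 9 ≤ y * y ^ 9 := by gcongr
        _ = y ^ 10 := by ring
    have h5 : (8 : ℝ) ^ 9 ≤ y ^ 9 := pow_le_pow_left₀ (by norm_num) hy8 9
    norm_num at h5
    linarith
  have hr2 : 2 ≤ r := by omega
  have hdr : d ∈ Finset.Icc 1 r := by
    rw [Finset.mem_Icc]
    refine ⟨hd1, ?_⟩
    have : (d : ℝ) ≤ r := by linarith
    exact_mod_cast this
  have hdy : (d : ℝ) ≤ y ^ 10 := by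
    have : (d : ℝ) ≤ r := by linarith
    linarith
  -- `M`
  obtain ⟨M, hM⟩ : ∃ M : ℕ, M = ⌊Real.exp (η / 4 * y ^ 70)⌋₊ := ⟨_, rfl⟩
  have hexpM : 2 ≤ Real.exp (η / 4 * y ^ 70) := by
    have := Real.add_one_le_exp (η / 4 * y ^ 70)
    linarith
  have hM1 : 1 ≤ M := by
    rw [hM, Nat.one_le_floor_iff]
    linarith
  have hM0 : (0 : ℝ) < M := by exact_mod_cast hM1
  have hMle : (M : ℝ) ≤ Real.exp (η / 4 * y ^ 70) := by
    rw [hM]; exact Nat.floor_le (Real.exp_nonneg _)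
  have hMge : Real.exp (η / 4 * y ^ 70) / 2 ≤ M := by
    have h1 : Real.exp (η / 4 * y ^ 70) < M + 1 := by rw [hM]; exact Nat.lt_floor_add_one _
    have h2 : (1 : ℝ) ≤ M := by exact_mod_cast hM1
    linarith
  have hM2 : (M : ℝ) ^ 2 ≤ Real.exp (η / 2 * y ^ 70) := by
    calc (M : ℝ) ^ 2 ≤ (Real.exp (η / 4 * y ^ 70)) ^ 2 := pow_le_pow_left₀ hM0.le hMle 2
      _ = _ := by
          rw [← Real.exp_nat_mul]
          congr 1
          push_cast
          ring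
  have hM3 : (M : ℝ) ^ 2 ≤ Real.exp (ℓ / 2) := by
    refine hM2.trans (Real.exp_le_exp.2 ?_)
    rw [← hℓ]
    nlinarith
  have hlogM : Real.log M ≤ y ^ 70 := by
    rw [Real.log_le_iff_le_exp hM0]
    refine hMle.trans (Real.exp_le_exp.2 ?_)
    rw [← hℓ]
    nlinarith
  have hMN : 2 * M ^ 2 ≤ N := by
    have h1 : (2 : ℝ) * (M : ℝ) ^ 2 ≤ N := by
      rw [hN, ← hℓ]
      have h2 : (2 : ℝ) ≤ Real.exp (ℓ / 2) := by
        have h3 := Real.add_one_le_exp (ℓ / 2)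
        have h4 : (8 : ℝ) ≤ y ^ 70 := by
          have h5 := yp 1 70 (by norm_num)
          rw [pow_one] at h5
          linarith
        rw [← hℓ] at h4
        linarith
      calc 2 * (M : ℝ) ^ 2 ≤ Real.exp (ℓ / 2) * Real.exp (ℓ / 2) := by gcongr
        _ = Real.exp ℓ := by rw [← Real.exp_add]; congr 1; ring
    exact_mod_cast h1
  -- the bound for one `b`
  have key : ∀ b ∈ Finset.Icc 1 H, ‖∑ p ∈ Finset.Icc 1 M, ∑ q ∈ Finset.Icc 1 M,
      ee (f * ((N + (b + p * q) : ℕ) : ℝ) ^ θ)‖ ≤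
      (M : ℝ) ^ 2 * (Real.exp (-(y ^ 21)) + Real.exp (-(y ^ 70))) := by
    intro b hb
    obtain ⟨hb1, hb2⟩ := Finset.mem_Icc.1 hb
    have hn1 : (N : ℝ) ≤ ((N + b : ℕ) : ℝ) := by push_cast; have : (0 : ℝ) ≤ b := Nat.cast_nonneg b; linarith
    have hn2 : ((N + b : ℕ) : ℝ) ≤ 2 * N := by
      have h1 : N + b ≤ 2 * N := by omega
      exact_mod_cast h1
    have hn0 : (0 : ℝ) < ((N + b : ℕ) : ℝ) := lt_of_lt_of_le hN0 hn1
    have hloc := loc θ hC r (N + b) M (by omega) (by omega) f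
    simp only [Nat.add_assoc] at hloc
    refine hloc.trans ?_
    rw [mul_add]
    refine add_le_add ?_ ?_
    · refine hT r d M _ hr2 hrle hdr hM1 hlogM ?_
      exact hW κ f N (N + b) d r M hN hfκ hn1 hn2 hMge hMle hd2 hd3 hd1 hdy hr2 hrle hM1
    · apply mul_le_mul_of_nonneg_left _ (by positivity)
      have e1 : |f| * ((N + b : ℕ) : ℝ) ^ θ ≤ 2 ^ θ * Real.exp (κ * ℓ) := by
        calc |f| * ((N + b : ℕ) : ℝ) ^ θ ≤ |f| * (2 * (N : ℝ)) ^ θ := by gcongr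
          _ = 2 ^ θ * (|f| * (N : ℝ) ^ θ) := by
              rw [Real.mul_rpow (by norm_num) hN0.le]; ring
          _ = _ := by rw [hfκ, hℓ]
      have e2 : (M : ℝ) ^ 2 / ((N + b : ℕ) : ℝ) ≤ Real.exp (-(ℓ / 2)) := by
        calc (M : ℝ) ^ 2 / ((N + b : ℕ) : ℝ) ≤ Real.exp (ℓ / 2) / N := by gcongr
          _ = Real.exp (-(ℓ / 2)) := by
              rw [hN, ← hℓ, ← Real.exp_sub]; congr 1; ring
      have e3 : ((M : ℝ) ^ 2 / ((N + b : ℕ) : ℝ)) ^ (r + 1) ≤ Real.exp (-(κ * ℓ) - 5 / 2 * ℓ) := by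
        calc ((M : ℝ) ^ 2 / ((N + b : ℕ) : ℝ)) ^ (r + 1) ≤ (Real.exp (-(ℓ / 2))) ^ (r + 1) := by
              gcongr
          _ = Real.exp (((r + 1 : ℕ) : ℝ) * (-(ℓ / 2))) := by rw [← Real.exp_nat_mul]
          _ ≤ _ := by
              apply Real.exp_le_exp.2
              push_cast
              nlinarith
      have hpi := Real.pi_pos
      calc 2 * Real.pi * (|f| * ((N + b : ℕ) : ℝ) ^ θ *
            (2 * C * ((M : ℝ) ^ 2 / ((N + b : ℕ) : ℝ)) ^ (r + 1))) ≤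
          2 * Real.pi * ((2 ^ θ * Real.exp (κ * ℓ)) * (2 * C * Real.exp (-(κ * ℓ) - 5 / 2 * ℓ))) := by
            gcongr
        _ = (2 * Real.pi * (2 ^ θ * (2 * C)) * y ^ 0 * Real.exp (-(3 / 2 * y ^ 70))) *
            Real.exp (-(y ^ 70)) := by
            have h5 : Real.exp (-(κ * ℓ) - 5 / 2 * ℓ) = Real.exp (-(κ * ℓ)) *
                (Real.exp (-(3 / 2 * ℓ)) * Real.exp (-ℓ)) := by
              rw [← Real.exp_add, ← Real.exp_add]; congr 1; ring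
            have h6 : Real.exp (κ * ℓ) * Real.exp (-(κ * ℓ)) = 1 := by
              rw [← Real.exp_add, add_neg_cancel, Real.exp_zero]
            rw [h5, pow_zero, ← hℓ]
            calc _ = (Real.exp (κ * ℓ) * Real.exp (-(κ * ℓ))) * (2 * Real.pi * (2 ^ θ * (2 * C)) * 1 *
                  Real.exp (-(3 / 2 * ℓ)) * Real.exp (-ℓ)) := by ring
              _ = _ := by rw [h6, one_mul]
        _ ≤ 1 * Real.exp (-(y ^ 70)) := by gcongr
        _ = _ := one_mul _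
  have hmain := bilinear' (fun b => ee (f * ((N + b : ℕ) : ℝ) ^ θ)) (fun n => (norm_ee _).le) H M hM1 key
  refine hmain.trans ?_
  have hH0 : (0 : ℝ) < H := lt_of_lt_of_le (Real.exp_pos _) hH1
  have h2 : (H : ℝ) * ((M : ℝ) ^ 2 * (Real.exp (-(y ^ 21)) + Real.exp (-(y ^ 70)))) / (M : ℝ) ^ 2 =
      H * Real.exp (-(y ^ 21)) + H * Real.exp (-(y ^ 70)) := by
    field_simp
  rw [h2]
  have hexp4 : Real.exp (-2) ≤ 1 / 4 := by
    rw [Real.exp_neg, ← one_div]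
    apply one_div_le_one_div_of_le (by norm_num)
    have h7 : Real.exp 2 = Real.exp 1 * Real.exp 1 := by rw [← Real.exp_add]; norm_num
    rw [h7]
    have h8 : (2 : ℝ) ≤ Real.exp 1 := by
      have := Real.add_one_le_exp (1 : ℝ)
      linarith
    nlinarith
  have hgen : ∀ z : ℝ, y ^ 20 + 2 ≤ z → Real.exp (-z) ≤ Real.exp (-(y ^ 20)) / 4 := by
    intro z hz
    calc Real.exp (-z) ≤ Real.exp (-(y ^ 20) + (-2)) := Real.exp_le_exp.2 (by linarith)
      _ = Real.exp (-(y ^ 20)) * Real.exp (-2) := by rw [Real.exp_add]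
      _ ≤ Real.exp (-(y ^ 20)) * (1 / 4) := by gcongr
      _ = _ := by ring
  have h21 : y ^ 20 + 2 ≤ y ^ 21 := by
    have h3 : 8 * y ^ 20 ≤ y ^ 21 := by
      calc 8 * y ^ 20 ≤ y * y ^ 20 := by gcongr
        _ = y ^ 21 := by ring
    have := hy1' 20
    linarith
  have h70 : y ^ 20 + 2 ≤ y ^ 70 := h21.trans (yp 21 70 (by norm_num))
  have hη2 : y ^ 20 + 5 ≤ η / 2 * y ^ 70 := by
    have h3 : 8 * y ^ 20 ≤ η / 2 * y ^ 50 * y ^ 20 := by gcongr
    have h4 : η / 2 * y ^ 50 * y ^ 20 = η / 2 * y ^ 70 := by ring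
    have := hy1' 20
    linarith
  have t3 : 2 * (M : ℝ) ^ 2 ≤ H * (Real.exp (-(y ^ 20)) / 4) := by
    have h3 : (M : ℝ) ^ 2 ≤ H * Real.exp (-(η / 2 * y ^ 70)) := by
      calc (M : ℝ) ^ 2 ≤ Real.exp (η / 2 * y ^ 70) := hM2
        _ = Real.exp (η * y ^ 70) * Real.exp (-(η / 2 * y ^ 70)) := by
            rw [← Real.exp_add]; congr 1; ring
        _ ≤ _ := by gcongr
    have h4 : Real.exp (-(η / 2 * y ^ 70)) ≤ Real.exp (-(y ^ 20)) / 8 := by
      have h5 := hgen (η / 2 * y ^ 70 - 1) (by linarith)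
      have h6 : Real.exp (-(η / 2 * y ^ 70)) = Real.exp (-(η / 2 * y ^ 70 - 1)) * Real.exp (-1) := by
        rw [← Real.exp_add]; congr 1; ring
      have h7 : Real.exp (-1) ≤ 1 / 2 := by
        rw [Real.exp_neg, ← one_div]
        apply one_div_le_one_div_of_le (by norm_num)
        have := Real.add_one_le_exp (1 : ℝ)
        linarith
      rw [h6]
      calc _ ≤ (Real.exp (-(y ^ 20)) / 4) * (1 / 2) := by gcongr
        _ = _ := by ring
    calc 2 * (M : ℝ) ^ 2 ≤ 2 * (H * (Real.exp (-(y ^ 20)) / 8)) := by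
          have : H * Real.exp (-(η / 2 * y ^ 70)) ≤ H * (Real.exp (-(y ^ 20)) / 8) := by gcongr
          linarith
      _ = _ := by ring
  have t1 : H * Real.exp (-(y ^ 21)) ≤ H * (Real.exp (-(y ^ 20)) / 4) := by
    gcongr; exact hgen _ h21
  have t2 : H * Real.exp (-(y ^ 70)) ≤ H * (Real.exp (-(y ^ 20)) / 4) := by
    gcongr; exact hgen _ h70
  have h9 : 0 < H * Real.exp (-(y ^ 20)) := by positivity
  linarith

end Pool.Agent.X121.ZS
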