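import Pool.Agent.X121.ZS.Tv3
import Pool.Agent.X121.ZS.Zs

set_option autoImplicit false

namespace Pool.Agent.X121.ZS

open Finset Filter MeasureTheory Pool.Agent.X121.AB Pool.Agent.X121.TV
open Pool.Agent.Y93.VK (ee ee_add norm_ee ee_zero ee_neg ee_eq)

open Classical in
/-- total variation from exponential sums, in terms of `y` -/
theorem tv_asm : ∀ᶠ y : ℝ in atTop, ∀ (S : Finset ℕ) (Z : ℕ → ℝ) (ι : Type) [Fintype ι]
    (q : ι → ℤ) (m : ι → ℕ), S.Nonempty → (Fintype.card ι : ℝ) ≤ y ^ 9 → (∀ i, q i ≠ 0) →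
    (∀ i, 1 ≤ m i) → (∀ i, (m i : ℝ) ≤ Real.exp (y ^ 9)) →
    (∀ h : ι → ℤ, (∀ i, (|h i| : ℝ) ≤ Real.exp (y ^ 10)) → fr q h ≠ 0 →
      ‖∑ b ∈ S, ee ((fr q h : ℝ) * Z b)‖ ≤ Real.exp (-(y ^ 20)) * S.card) → ∀ E : Set (ι → ℕ),
    |((S.filter fun b => cl m q (Z b) ∈ E).card : ℝ) / S.card - U.real {x | cl m q x ∈ E}| ≤
      Real.exp (-(y ^ 9)) := by
  filter_upwards [eventually_ge_atTop (30 : ℝ)] with y hy
  intro S Z ι _ q m hS hD hq hm hmy hX E
  have hy0 : (0 : ℝ) < y := by linarith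
  have hy1 : (1 : ℝ) ≤ y := by linarith
  have hy9 : (1 : ℝ) ≤ y ^ 9 := one_le_pow₀ hy1
  have h109 : 30 * y ^ 9 ≤ y ^ 10 := by
    calc 30 * y ^ 9 ≤ y * y ^ 9 := by gcongr
      _ = y ^ 10 := by ring
  obtain ⟨T, hT⟩ : ∃ T : ℕ, T = ⌊Real.exp (y ^ 10)⌋₊ := ⟨_, rfl⟩
  have hexp10 : 2 ≤ Real.exp (y ^ 10) := by
    have h1 := Real.add_one_le_exp (y ^ 10)
    linarith
  have hT1 : 1 ≤ T := by
    rw [hT, Nat.one_le_floor_iff]
    linarith
  have hTle : (T : ℝ) ≤ Real.exp (y ^ 10) := by rw [hT]; exact Nat.floor_le (Real.exp_nonneg _)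
  have hTge : Real.exp (y ^ 10) / 2 ≤ T := by
    have h1 : Real.exp (y ^ 10) < T + 1 := by rw [hT]; exact Nat.lt_floor_add_one _
    have h2 : (1 : ℝ) ≤ T := by exact_mod_cast hT1
    linarith
  have hT0 : (0 : ℝ) < T := by exact_mod_cast hT1
  obtain ⟨δ, hδ⟩ : ∃ δ : ℝ, δ = Real.exp (-(y ^ 10 / 2)) := ⟨_, rfl⟩
  have hδ0 : 0 < δ := by rw [hδ]; exact Real.exp_pos _
  have hδT : 1 / (δ * T) ≤ 2 * δ := by
    have h1 : δ * δ * Real.exp (y ^ 10) = 1 := by
      rw [hδ, ← Real.exp_add, ← Real.exp_add, ← Real.exp_zero]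
      congr 1
      ring
    rw [div_le_iff₀ (by positivity)]
    calc (1 : ℝ) = δ * δ * Real.exp (y ^ 10) := h1.symm
      _ ≤ δ * δ * (2 * T) := by
          apply mul_le_mul_of_nonneg_left _ (by positivity)
          linarith
      _ = 2 * δ * (δ * T) := by ring
  have hsm : ∀ z : ℝ, z ≤ -2 → Real.exp z ≤ 1 / 4 := by
    intro z hz
    have h1 : Real.exp z ≤ Real.exp (-2) := Real.exp_le_exp.2 hz
    have h2 : Real.exp (-2) ≤ 1 / 4 := by
      rw [Real.exp_neg, ← one_div]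
      apply one_div_le_one_div_of_le (by norm_num)
      have h7 : Real.exp 2 = Real.exp 1 * Real.exp 1 := by rw [← Real.exp_add]; norm_num
      rw [h7]
      have h8 : (2 : ℝ) ≤ Real.exp 1 := by
        have := Real.add_one_le_exp (1 : ℝ)
        linarith
      nlinarith
    linarith
  have hmδ' : ∀ i, m i * δ ≤ 1 / 4 := by
    intro i
    calc (m i : ℝ) * δ ≤ Real.exp (y ^ 9) * δ := by gcongr; exact hmy i
      _ = Real.exp (y ^ 9 + -(y ^ 10 / 2)) := by rw [hδ, Real.exp_add]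
      _ ≤ 1 / 4 := hsm _ (by linarith)
  have hmδ : ∀ i, m i * δ ≤ 1 := fun i => (hmδ' i).trans (by norm_num)
  have hmT : ∀ i, m i / (δ * T) ≤ 1 / 2 := by
    intro i
    calc (m i : ℝ) / (δ * T) = m i * (1 / (δ * T)) := by ring
      _ ≤ m i * (2 * δ) := by gcongr
      _ = 2 * (m i * δ) := by ring
      _ ≤ 1 / 2 := by have := hmδ' i; linarith
  have hX' : ∀ h : ι → ℤ, (∀ i, |h i| ≤ T) → fr q h ≠ 0 →
      ‖∑ b ∈ S, ee ((fr q h : ℝ) * Z b)‖ ≤ Real.exp (-(y ^ 20)) * S.card := by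
    intro h hh h0
    refine hX h (fun i => ?_) h0
    have h1 : ((|h i| : ℤ) : ℝ) ≤ T := by exact_mod_cast hh i
    push_cast at h1
    exact h1.trans hTle
  refine (tv1 S hS Z q hq m hm T hT1 hδ0 hmδ hmT (Real.exp_nonneg _) hX' E).trans ?_
  obtain ⟨D, hDd⟩ : ∃ D : ℕ, D = Fintype.card ι := ⟨_, rfl⟩
  rw [← hDd] at hD ⊢
  have h5D : (5 : ℝ) ^ D ≤ Real.exp (5 * y ^ 9) := by
    calc (5 : ℝ) ^ D ≤ (Real.exp 5) ^ D := by
          apply pow_le_pow_left₀ (by norm_num)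
          have := Real.add_one_le_exp (5 : ℝ)
          linarith
      _ = Real.exp (D * 5) := by rw [← Real.exp_nat_mul]
      _ ≤ Real.exp (5 * y ^ 9) := Real.exp_le_exp.2 (by linarith)
  have hDe : (D : ℝ) ≤ Real.exp (y ^ 9) := by
    have := Real.add_one_le_exp (y ^ 9)
    linarith
  have hsum : ∑ i, m i * (δ + 1 / (δ * T)) ≤ D * (Real.exp (y ^ 9) * (3 * δ)) := by
    calc ∑ i, m i * (δ + 1 / (δ * T)) ≤ ∑ i : ι, Real.exp (y ^ 9) * (3 * δ) := by
          refine Finset.sum_le_sum fun i _ => ?_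
          have := hmy i
          gcongr
          linarith
      _ = _ := by rw [Finset.sum_const, Finset.card_univ, nsmul_eq_mul, hDd]
  have t1 : 5 ^ D * ∑ i, m i * (δ + 1 / (δ * T)) ≤ Real.exp (-(y ^ 9)) / 2 := by
    calc 5 ^ D * ∑ i, m i * (δ + 1 / (δ * T)) ≤
        Real.exp (5 * y ^ 9) * (Real.exp (y ^ 9) * (Real.exp (y ^ 9) * (3 * δ))) := by
          apply mul_le_mul h5D _ _ (Real.exp_nonneg _)
          · refine hsum.trans ?_
            gcongr
          · refine Finset.sum_nonneg fun i _ => by positivity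
      _ = 3 * Real.exp (5 * y ^ 9 + (y ^ 9 + (y ^ 9 + -(y ^ 10 / 2)))) := by
          rw [hδ, Real.exp_add, Real.exp_add, Real.exp_add]; ring
      _ = 3 * (Real.exp (-(y ^ 9)) * Real.exp (8 * y ^ 9 - y ^ 10 / 2)) := by
          rw [← Real.exp_add]; congr 2; ring
      _ ≤ 3 * (Real.exp (-(y ^ 9)) * (1 / 8)) := by
          have h1 : Real.exp (8 * y ^ 9 - y ^ 10 / 2) ≤ 1 / 8 := by
            have h2 : Real.exp (8 * y ^ 9 - y ^ 10 / 2) ≤ Real.exp (-2 + -2) :=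
              Real.exp_le_exp.2 (by linarith)
            rw [Real.exp_add] at h2
            have h3 := hsm (-2) le_rfl
            have h4 := Real.exp_pos (-2)
            nlinarith
          gcongr
      _ ≤ _ := by have := Real.exp_pos (-(y ^ 9)); linarith
  have hprod : ∏ i, (m i : ℝ) ≤ Real.exp (y ^ 18) := by
    calc ∏ i, (m i : ℝ) ≤ ∏ i : ι, Real.exp (y ^ 9) :=
          Finset.prod_le_prod (fun _ _ => Nat.cast_nonneg _) fun i _ => hmy i
      _ = Real.exp (D * y ^ 9) := by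
          rw [Finset.prod_const, Finset.card_univ, ← hDd, ← Real.exp_nat_mul]
      _ ≤ Real.exp (y ^ 18) := by
          apply Real.exp_le_exp.2
          calc (D : ℝ) * y ^ 9 ≤ y ^ 9 * y ^ 9 := by gcongr
            _ = y ^ 18 := by ring
  have hpow : ((2 * T + 1) * (4 / δ) : ℝ) ^ D ≤ Real.exp (2 * y ^ 19) := by
    have h1 : (2 * T + 1) * (4 / δ) ≤ Real.exp (2 * y ^ 10) := by
      have e1 : (4 : ℝ) / δ = 4 * Real.exp (y ^ 10 / 2) := by
        rw [hδ, Real.exp_neg, div_inv_eq_mul]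
      have e2 : (2 * T + 1 : ℝ) ≤ 3 * Real.exp (y ^ 10) := by linarith
      have e3 : (12 : ℝ) ≤ Real.exp (y ^ 10 / 2) := by
        have h1 := Real.add_one_le_exp (y ^ 10 / 2)
        linarith
      calc (2 * T + 1 : ℝ) * (4 / δ) ≤ (3 * Real.exp (y ^ 10)) * (4 * Real.exp (y ^ 10 / 2)) := by
            rw [e1]; gcongr
        _ = 12 * (Real.exp (y ^ 10) * Real.exp (y ^ 10 / 2)) := by ring
        _ ≤ Real.exp (y ^ 10 / 2) * (Real.exp (y ^ 10) * Real.exp (y ^ 10 / 2)) := by gcongr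
        _ = Real.exp (2 * y ^ 10) := by
            rw [← Real.exp_add, ← Real.exp_add]; congr 1; ring
    calc ((2 * T + 1) * (4 / δ) : ℝ) ^ D ≤ (Real.exp (2 * y ^ 10)) ^ D :=
          pow_le_pow_left₀ (by positivity) h1 D
      _ = Real.exp (D * (2 * y ^ 10)) := by rw [← Real.exp_nat_mul]
      _ ≤ Real.exp (2 * y ^ 19) := by
          apply Real.exp_le_exp.2
          calc (D : ℝ) * (2 * y ^ 10) ≤ y ^ 9 * (2 * y ^ 10) := by gcongr
            _ = 2 * y ^ 19 := by ring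
  have t2 : (∏ i, (m i : ℝ)) * (((2 * T + 1) * (4 / δ)) ^ D * Real.exp (-(y ^ 20))) ≤
      Real.exp (-(y ^ 9)) / 2 := by
    calc _ ≤ Real.exp (y ^ 18) * (Real.exp (2 * y ^ 19) * Real.exp (-(y ^ 20))) := by gcongr
      _ = Real.exp (-(y ^ 9)) * Real.exp (y ^ 9 + y ^ 18 + 2 * y ^ 19 - y ^ 20) := by
          rw [← Real.exp_add, ← Real.exp_add, ← Real.exp_add]; congr 1; ring
      _ ≤ Real.exp (-(y ^ 9)) * (1 / 4) := by
          have h1 : y ^ 9 ≤ y ^ 19 := pow_le_pow_right₀ hy1 (by norm_num)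
          have h2 : y ^ 18 ≤ y ^ 19 := pow_le_pow_right₀ hy1 (by norm_num)
          have h3 : 30 * y ^ 19 ≤ y ^ 20 := by
            calc 30 * y ^ 19 ≤ y * y ^ 19 := by gcongr
              _ = y ^ 20 := by ring
          gcongr
          exact hsm _ (by linarith)
      _ ≤ _ := by have := Real.exp_pos (-(y ^ 9)); linarith
  linarith

end Pool.Agent.X121.ZS
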