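import Mathlib

set_option autoImplicit false

namespace Pool.Agent.X121.ZS

open Finset

/-- binomial coefficients -/
noncomputable def bc (θ : ℝ) (j : ℕ) : ℝ := ∏ i ∈ Finset.range j, (θ - i) / (i + 1)

theorem bc_zero (θ : ℝ) : bc θ 0 = 1 := by simp [bc]

theorem bc_succ (θ : ℝ) (j : ℕ) : bc θ (j + 1) = bc θ j * ((θ - j) / (j + 1)) := by
  unfold bc
  rw [Finset.prod_range_succ]

theorem desc_eq (θ : ℝ) (j : ℕ) : (descPochhammer ℤ j).smeval θ = j.factorial * bc θ j := by
  induction j with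
  | zero => simp [bc_zero]
  | succ j ih =>
    rw [descPochhammer_succ_right, Polynomial.smeval_mul, ih, bc_succ, Nat.factorial_succ,
      Polynomial.smeval_sub, Polynomial.smeval_X, Polynomial.smeval_natCast]
    have : ((j : ℝ) + 1) ≠ 0 := by positivity
    push_cast
    field_simp
    simp

theorem choose_eq (θ : ℝ) (j : ℕ) : Ring.choose θ j = bc θ j := by
  rw [Ring.choose_eq_smul, desc_eq]
  have : (j.factorial : ℝ) ≠ 0 := by positivity
  rw [smul_eq_mul, ← mul_assoc, inv_mul_cancel₀ this, one_mul]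

/-- upper bound -/
theorem bc_le (θ : ℝ) (hθ : 0 ≤ θ) : ∃ C : ℝ, 1 ≤ C ∧ ∀ j, |bc θ j| ≤ C := by
  obtain ⟨n, hn⟩ : ∃ n : ℕ, n = ⌈θ⌉₊ := ⟨_, rfl⟩
  have hn' : θ ≤ n := by rw [hn]; exact Nat.le_ceil θ
  refine ⟨(1 + θ) ^ n, one_le_pow₀ (by linarith), fun j => ?_⟩
  have key : ∀ i : ℕ, |(θ - i) / ((i : ℝ) + 1)| ≤ if i < n then 1 + θ else 1 := by
    intro i
    have hi : (0 : ℝ) ≤ i := Nat.cast_nonneg i
    rw [abs_div, abs_of_pos (by positivity : (0 : ℝ) < (i : ℝ) + 1), div_le_iff₀ (by positivity)]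
    split_ifs with h
    · rw [abs_le]
      constructor <;> nlinarith
    · have h1 : (n : ℝ) ≤ i := by exact_mod_cast not_lt.1 h
      rw [abs_le]
      constructor <;> linarith
  unfold bc
  rw [Finset.abs_prod]
  calc ∏ i ∈ Finset.range j, |(θ - i) / ((i : ℝ) + 1)| ≤
      ∏ i ∈ Finset.range j, (if i < n then 1 + θ else 1) :=
        Finset.prod_le_prod (fun _ _ => abs_nonneg _) fun i _ => key i
    _ = (1 + θ) ^ ((Finset.range j).filter fun i => i < n).card := by
        rw [Finset.prod_ite, Finset.prod_const, Finset.prod_const_one, mul_one]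
    _ ≤ (1 + θ) ^ n := by
        apply pow_le_pow_right₀ (by linarith)
        calc _ ≤ (Finset.range n).card := by
              apply Finset.card_le_card
              intro i hi
              rw [Finset.mem_filter] at hi
              exact Finset.mem_range.2 hi.2
          _ = n := Finset.card_range n

/-- lower bound -/
theorem bc_ge (θ : ℝ) (hθ : ∀ m : ℕ, θ ≠ m) : ∃ c : ℝ, 0 < c ∧ c ≤ 1 ∧ ∀ j, c ^ j / j.factorial ≤ |bc θ j| := by
  -- the distance of `θ` to the natural numbers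
  have hex : ∃ c : ℝ, 0 < c ∧ c ≤ 1 ∧ ∀ i : ℕ, c ≤ |θ - i| := by
    obtain ⟨n, hn⟩ : ∃ n : ℕ, n = ⌈|θ|⌉₊ + 1 := ⟨_, rfl⟩
    have hn' : |θ| + 1 ≤ n := by
      have := Nat.le_ceil |θ|
      rw [hn]; push_cast; linarith
    obtain ⟨c, hc⟩ : ∃ c : ℝ, c = (insert 1 ((Finset.range n).image fun i : ℕ => |θ - i|)).min'
      (Finset.insert_nonempty _ _) := ⟨_, rfl⟩
    refine ⟨c, ?_, ?_, ?_⟩
    · have h1 := Finset.min'_mem (insert 1 ((Finset.range n).image fun i : ℕ => |θ - i|))
        (Finset.insert_nonempty _ _)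
      rw [← hc, Finset.mem_insert, Finset.mem_image] at h1
      rcases h1 with h1 | ⟨i, -, h1⟩
      · rw [h1]; exact one_pos
      · rw [← h1, abs_pos]
        exact sub_ne_zero.2 (hθ i)
    · rw [hc]
      exact Finset.min'_le _ _ (Finset.mem_insert_self _ _)
    · intro i
      by_cases hi : i < n
      · rw [hc]
        exact Finset.min'_le _ _ (Finset.mem_insert_of_mem
          (Finset.mem_image.2 ⟨i, Finset.mem_range.2 hi, rfl⟩))
      · have h1 : (n : ℝ) ≤ i := by exact_mod_cast not_lt.1 hi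
        have h2 : c ≤ 1 := by rw [hc]; exact Finset.min'_le _ _ (Finset.mem_insert_self _ _)
        have h3 := neg_abs_le (θ - i)
        have h4 := le_abs_self θ
        linarith
  obtain ⟨c, hc0, hc1, hc⟩ := hex
  refine ⟨c, hc0, hc1, fun j => ?_⟩
  induction j with
  | zero => simp [bc_zero]
  | succ j ih =>
    rw [bc_succ, abs_mul, abs_div, abs_of_pos (by positivity : (0 : ℝ) < (j : ℝ) + 1),
      Nat.factorial_succ]
    calc c ^ (j + 1) / (((j + 1) * j.factorial : ℕ) : ℝ) = (c ^ j / j.factorial) * (c / (j + 1)) := by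
          push_cast
          field_simp
          ring
      _ ≤ |bc θ j| * (|θ - j| / (j + 1)) := by
          apply mul_le_mul ih _ (by positivity) (abs_nonneg _)
          gcongr
          exact hc j

/-- the binomial series with a remainder -/
theorem bin_series (θ : ℝ) {C : ℝ} (hC : ∀ j, |bc θ j| ≤ C) (r : ℕ) {z : ℝ} (hz : |z| ≤ 1 / 2) :
    |(1 + z) ^ θ - ∑ j ∈ Finset.range (r + 1), bc θ j * z ^ j| ≤ 2 * C * |z| ^ (r + 1) := by
  have h1 : HasSum (fun j => bc θ j * z ^ j) ((1 + z) ^ θ) := by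
    have h2 := (Real.one_add_rpow_hasFPowerSeriesOnBall_zero (a := θ)).hasSum (y := z) (by
      rw [Metric.mem_eball, edist_zero_right]
      rw [← ofReal_norm, Real.norm_eq_abs]
      rw [← ENNReal.ofReal_one]
      rw [ENNReal.ofReal_lt_ofReal_iff one_pos]
      linarith)
    rw [zero_add] at h2
    have e : (fun j => bc θ j * z ^ j) = fun j => (binomialSeries ℝ θ j) fun _ => z := by
      funext j
      rw [binomialSeries_apply, choose_eq, smul_eq_mul, List.ofFn_const, List.prod_replicate]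
    rw [e]
    exact h2
  have hC0 : 0 ≤ C := (abs_nonneg _).trans (hC 0)
  have h2 := h1.summable.sum_add_tsum_nat_add (r + 1)
  rw [h1.tsum_eq] at h2
  have h3 : (1 + z) ^ θ - ∑ j ∈ Finset.range (r + 1), bc θ j * z ^ j =
      ∑' i, bc θ (i + (r + 1)) * z ^ (i + (r + 1)) := by
    rw [← h2]; ring
  rw [h3]
  have hz1 : |z| < 1 := by linarith
  have h4 : HasSum (fun i : ℕ => C * |z| ^ (r + 1) * |z| ^ i) (C * |z| ^ (r + 1) * (1 - |z|)⁻¹) :=
    (hasSum_geometric_of_lt_one (abs_nonneg z) hz1).mul_left _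
  have h5 := tsum_of_norm_bounded h4 (f := fun i => bc θ (i + (r + 1)) * z ^ (i + (r + 1))) (by
    intro i
    rw [Real.norm_eq_abs, abs_mul, abs_pow, pow_add]
    calc |bc θ (i + (r + 1))| * (|z| ^ i * |z| ^ (r + 1)) ≤ C * (|z| ^ i * |z| ^ (r + 1)) := by
          gcongr
          exact hC _
      _ = _ := by ring)
  rw [Real.norm_eq_abs] at h5
  refine h5.trans ?_
  have h6 : (1 - |z|)⁻¹ ≤ 2 := by
    rw [inv_le_comm₀ (by linarith) (by norm_num)]
    linarith
  calc C * |z| ^ (r + 1) * (1 - |z|)⁻¹ ≤ C * |z| ^ (r + 1) * 2 := by gcongr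
    _ = _ := by ring

end Pool.Agent.X121.ZS
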