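import Pool.Agent.X121.ZS.TTg
import Pool.Agent.X121.ZS.Bin
import Pool.Agent.X121.AB.Weyl
import Pool.Agent.X121.AB.ET

set_option autoImplicit false

namespace Pool.Agent.X121.ZS

open Finset Pool.Agent.Y957.VK Filter Pool.Agent.X121.AB
open Pool.Agent.Y93.VK (ee ee_add norm_ee)

/-- the coefficients -/
noncomputable def aj (θ f : ℝ) (n j : ℕ) : ℝ := f * bc θ j * (n : ℝ) ^ (θ - j)

theorem loc (θ : ℝ) {C : ℝ} (hC : ∀ j, |bc θ j| ≤ C) (r n M : ℕ) (hn : 1 ≤ n) (hM : 2 * M ^ 2 ≤ n)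
    (f : ℝ) :
    ‖∑ p ∈ Finset.Icc 1 M, ∑ q ∈ Finset.Icc 1 M, ee (f * ((n + p * q : ℕ) : ℝ) ^ θ)‖ ≤
      ‖TT r M (aj θ f n)‖ + (M : ℝ) ^ 2 * (2 * Real.pi * (|f| * (n : ℝ) ^ θ *
        (2 * C * ((M : ℝ) ^ 2 / n) ^ (r + 1)))) := by
  have hn0 : (0 : ℝ) < n := by exact_mod_cast hn
  have hC0 : 0 ≤ C := (abs_nonneg _).trans (hC 0)
  obtain ⟨E, hE⟩ : ∃ E : ℝ, E = 2 * Real.pi * (|f| * (n : ℝ) ^ θ *
        (2 * C * ((M : ℝ) ^ 2 / n) ^ (r + 1))) := ⟨_, rfl⟩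
  have hTT : ∑ p ∈ Finset.Icc 1 M, ∑ q ∈ Finset.Icc 1 M,
      ee (f * (n : ℝ) ^ θ + ∑ j ∈ Finset.Icc 1 r, aj θ f n j * ((p : ℝ) * q) ^ j) =
      ee (f * (n : ℝ) ^ θ) * TT r M (aj θ f n) := by
    unfold TT
    rw [Finset.mul_sum]
    refine Finset.sum_congr rfl fun p _ => ?_
    rw [Finset.mul_sum]
    refine Finset.sum_congr rfl fun q _ => ?_
    rw [ee_add]
    rfl
  have key : ∀ p ∈ Finset.Icc 1 M, ∀ q ∈ Finset.Icc 1 M,
      ‖ee (f * ((n + p * q : ℕ) : ℝ) ^ θ) -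
        ee (f * (n : ℝ) ^ θ + ∑ j ∈ Finset.Icc 1 r, aj θ f n j * ((p : ℝ) * q) ^ j)‖ ≤ E := by
    intro p hp q hq
    refine (ee_sub_le _ _).trans ?_
    have hpq : p * q ≤ M ^ 2 := by
      rw [pow_two]
      exact Nat.mul_le_mul (Finset.mem_Icc.1 hp).2 (Finset.mem_Icc.1 hq).2
    obtain ⟨z, hz⟩ : ∃ z : ℝ, z = ((p * q : ℕ) : ℝ) / n := ⟨_, rfl⟩
    have hz0 : 0 ≤ z := by rw [hz]; positivity
    have hzM : z ≤ (M : ℝ) ^ 2 / n := by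
      rw [hz]
      gcongr
      exact_mod_cast hpq
    have hz1 : |z| ≤ 1 / 2 := by
      rw [abs_of_nonneg hz0, hz, div_le_iff₀ hn0]
      have : 2 * (p * q) ≤ n := by omega
      have h2 : (2 : ℝ) * ((p * q : ℕ) : ℝ) ≤ n := by exact_mod_cast this
      linarith
    have h1 := bin_series θ hC r hz1
    have e1 : ((n + p * q : ℕ) : ℝ) ^ θ = (n : ℝ) ^ θ * (1 + z) ^ θ := by
      rw [← Real.mul_rpow hn0.le (by linarith)]
      congr 1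
      rw [hz]
      push_cast
      field_simp
    have e2 : f * ((n + p * q : ℕ) : ℝ) ^ θ -
        (f * (n : ℝ) ^ θ + ∑ j ∈ Finset.Icc 1 r, aj θ f n j * ((p : ℝ) * q) ^ j) =
        f * (n : ℝ) ^ θ * ((1 + z) ^ θ - ∑ j ∈ Finset.range (r + 1), bc θ j * z ^ j) := by
      rw [e1, sum_range_Icc, bc_zero, pow_zero, mul_one, mul_sub, mul_add, mul_one, Finset.mul_sum]
      have e3 : ∑ j ∈ Finset.Icc 1 r, aj θ f n j * ((p : ℝ) * q) ^ j =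
          ∑ j ∈ Finset.Icc 1 r, f * (n : ℝ) ^ θ * (bc θ j * z ^ j) := by
        refine Finset.sum_congr rfl fun j _ => ?_
        unfold aj
        rw [Real.rpow_sub hn0, Real.rpow_natCast, hz, div_pow]
        push_cast
        ring
      rw [e3]
      ring
    rw [e2, abs_mul, abs_mul, abs_of_nonneg (by positivity : (0 : ℝ) ≤ (n : ℝ) ^ θ), hE]
    have h2 : |z| ^ (r + 1) ≤ ((M : ℝ) ^ 2 / n) ^ (r + 1) := by
      rw [abs_of_nonneg hz0]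
      exact pow_le_pow_left₀ hz0 hzM _
    have hpi := Real.pi_pos
    gcongr
    refine h1.trans ?_
    gcongr
  have hdiff : ‖∑ p ∈ Finset.Icc 1 M, ∑ q ∈ Finset.Icc 1 M, ee (f * ((n + p * q : ℕ) : ℝ) ^ θ) -
      ee (f * (n : ℝ) ^ θ) * TT r M (aj θ f n)‖ ≤ (M : ℝ) ^ 2 * E := by
    rw [← hTT, ← Finset.sum_sub_distrib]
    refine (norm_sum_le _ _).trans ?_
    calc _ ≤ ∑ p ∈ Finset.Icc 1 M, ((M : ℝ) * E) := by
          refine Finset.sum_le_sum fun p hp => ?_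
          rw [← Finset.sum_sub_distrib]
          refine (norm_sum_le _ _).trans ?_
          calc _ ≤ ∑ q ∈ Finset.Icc 1 M, E := Finset.sum_le_sum fun q hq => key p hp q hq
            _ = _ := by rw [Finset.sum_const, Nat.card_Icc, nsmul_eq_mul, Nat.add_sub_cancel]
      _ = _ := by
          rw [Finset.sum_const, Nat.card_Icc, nsmul_eq_mul, Nat.add_sub_cancel]
          ring
  have h3 : ‖ee (f * (n : ℝ) ^ θ) * TT r M (aj θ f n)‖ = ‖TT r M (aj θ f n)‖ := by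
    rw [norm_mul, norm_ee, one_mul]
  calc _ = ‖(∑ p ∈ Finset.Icc 1 M, ∑ q ∈ Finset.Icc 1 M, ee (f * ((n + p * q : ℕ) : ℝ) ^ θ) -
      ee (f * (n : ℝ) ^ θ) * TT r M (aj θ f n)) + ee (f * (n : ℝ) ^ θ) * TT r M (aj θ f n)‖ := by
        congr 1; ring
    _ ≤ (M : ℝ) ^ 2 * E + ‖TT r M (aj θ f n)‖ := (norm_add_le _ _).trans (by rw [h3]; gcongr)
    _ = _ := by rw [hE]; ring

theorem WJ_good {s M d : ℕ} (hs : 1 ≤ s) (hM : 1 ≤ M) (hd : 1 ≤ d) {a ρ : ℝ} (ha : a ≠ 0)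
    (h1 : |a| * (s * M ^ d : ℕ) ≤ 1 / 2) (h2 : 1 / |a| ≤ (M : ℝ) ^ (2 * d) * ρ) :
    WJ s M d a ≤ (((3 * (s * M ^ d) : ℕ) : ℝ)) ^ 2 * (1 / M + ρ * (1 + Real.log (s * M ^ d : ℕ))) := by
  refine ((Pool.Agent.Y331.VK.wb s M d a hs hM).2 ha h1).trans ?_
  have hM0 : (0 : ℝ) < M := by exact_mod_cast hM
  have hM1 : (1 : ℝ) ≤ M := by exact_mod_cast hM
  have hs1 : (1 : ℝ) ≤ s := by exact_mod_cast hs
  have hV : 1 ≤ s * M ^ d := Nat.mul_pos hs (pow_pos hM d)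
  have hV1 : (1 : ℝ) ≤ ((s * M ^ d : ℕ) : ℝ) := by exact_mod_cast hV
  have hlog : 0 ≤ Real.log ((s * M ^ d : ℕ) : ℝ) := Real.log_nonneg hV1
  have hMV : (M : ℝ) ≤ ((s * M ^ d : ℕ) : ℝ) := by
    push_cast
    calc (M : ℝ) = 1 * (M : ℝ) ^ 1 := by ring
      _ ≤ s * (M : ℝ) ^ d := by gcongr
  have hVV : (M : ℝ) ^ (2 * d) ≤ (((3 * (s * M ^ d) : ℕ) : ℝ)) ^ 2 := by
    push_cast
    calc (M : ℝ) ^ (2 * d) = ((M : ℝ) ^ d) ^ 2 := by rw [← pow_mul, mul_comm]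
      _ ≤ (3 * (s * (M : ℝ) ^ d)) ^ 2 := by
          apply pow_le_pow_left₀ (by positivity)
          have : 0 < (M : ℝ) ^ d := by positivity
          nlinarith
  have hρ : 0 ≤ ρ := by
    have h3 : 0 < 1 / |a| := by
      have := abs_pos.2 ha
      positivity
    have h4 : 0 < (M : ℝ) ^ (2 * d) * ρ := lt_of_lt_of_le h3 h2
    exact (pos_of_mul_pos_right h4 (by positivity)).le
  have e1 : (2 * ((s * M ^ d : ℕ) : ℝ) + 1) ≤ (((3 * (s * M ^ d) : ℕ) : ℝ)) ^ 2 * (1 / M) := by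
    have e3 : (((3 * (s * M ^ d) : ℕ) : ℝ)) = 3 * ((s * M ^ d : ℕ) : ℝ) := by push_cast; ring
    rw [e3, mul_one_div, le_div_iff₀ hM0]
    nlinarith
  have e2 : 1 / |a| * (1 + Real.log ((s * M ^ d : ℕ) : ℝ)) ≤
      (((3 * (s * M ^ d) : ℕ) : ℝ)) ^ 2 * (ρ * (1 + Real.log ((s * M ^ d : ℕ) : ℝ))) := by
    calc _ ≤ ((M : ℝ) ^ (2 * d) * ρ) * (1 + Real.log ((s * M ^ d : ℕ) : ℝ)) := by gcongr
      _ = (M : ℝ) ^ (2 * d) * (ρ * (1 + Real.log ((s * M ^ d : ℕ) : ℝ))) := by ring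
      _ ≤ _ := by gcongr
  push_cast at e1 e2 ⊢
  linarith

/-- shifting a sum by products, `b ≥ 1` -/
theorem bilinear' (F : ℕ → ℂ) (hF : ∀ n, ‖F n‖ ≤ 1) (B M : ℕ) (hM : 1 ≤ M) {T : ℝ}
    (hT : ∀ b ∈ Finset.Icc 1 B, ‖∑ p ∈ Finset.Icc 1 M, ∑ q ∈ Finset.Icc 1 M, F (b + p * q)‖ ≤ T) :
    ‖∑ b ∈ Finset.Icc 1 B, F b‖ ≤ B * T / (M : ℝ) ^ 2 + 2 * (M : ℝ) ^ 2 := by
  have hM0 : (0 : ℝ) < M := by exact_mod_cast hM
  have h1 : ‖((M : ℂ) ^ 2) * ∑ b ∈ Finset.Icc 1 B, F b -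
      ∑ b ∈ Finset.Icc 1 B, ∑ p ∈ Finset.Icc 1 M, ∑ q ∈ Finset.Icc 1 M, F (b + p * q)‖ ≤
      (M : ℝ) ^ 2 * (2 * (M : ℝ) ^ 2) := by
    have e1 : ∑ b ∈ Finset.Icc 1 B, ∑ p ∈ Finset.Icc 1 M, ∑ q ∈ Finset.Icc 1 M, F (b + p * q) =
        ∑ p ∈ Finset.Icc 1 M, ∑ q ∈ Finset.Icc 1 M, ∑ b ∈ Finset.Icc 1 B, F (b + p * q) := by
      rw [Finset.sum_comm]
      exact Finset.sum_congr rfl fun p _ => Finset.sum_comm
    have e2 : ((M : ℂ) ^ 2) * ∑ b ∈ Finset.Icc 1 B, F b =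
        ∑ p ∈ Finset.Icc 1 M, ∑ q ∈ Finset.Icc 1 M, ∑ b ∈ Finset.Icc 1 B, F b := by
      simp only [Finset.sum_const, Nat.card_Icc, Nat.add_sub_cancel, nsmul_eq_mul]
      ring
    rw [e1, e2, ← Finset.sum_sub_distrib]
    refine (norm_sum_le _ _).trans ?_
    calc _ ≤ ∑ p ∈ Finset.Icc 1 M, ((M : ℝ) * (2 * (M : ℝ) ^ 2)) := by
          refine Finset.sum_le_sum fun p hp => ?_
          rw [← Finset.sum_sub_distrib]
          refine (norm_sum_le _ _).trans ?_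
          calc _ ≤ ∑ q ∈ Finset.Icc 1 M, (2 * (M : ℝ) ^ 2) := by
                refine Finset.sum_le_sum fun q hq => ?_
                refine (shift_sum F hF B (p * q)).trans ?_
                have hp' := (Finset.mem_Icc.1 hp).2
                have hq' := (Finset.mem_Icc.1 hq).2
                have : ((p * q : ℕ) : ℝ) ≤ (M : ℝ) ^ 2 := by
                  have h5 : p * q ≤ M ^ 2 := by rw [pow_two]; exact Nat.mul_le_mul hp' hq'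
                  exact_mod_cast h5
                linarith
            _ = _ := by
                rw [Finset.sum_const, Nat.card_Icc, nsmul_eq_mul, Nat.add_sub_cancel]
      _ = _ := by
          rw [Finset.sum_const, Nat.card_Icc, nsmul_eq_mul, Nat.add_sub_cancel]
          ring
  have h2 : ‖∑ b ∈ Finset.Icc 1 B, ∑ p ∈ Finset.Icc 1 M, ∑ q ∈ Finset.Icc 1 M, F (b + p * q)‖ ≤
      B * T := by
    refine (norm_sum_le _ _).trans ?_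
    calc _ ≤ ∑ b ∈ Finset.Icc 1 B, T := Finset.sum_le_sum fun b hb => hT b hb
      _ = _ := by rw [Finset.sum_const, Nat.card_Icc, nsmul_eq_mul, Nat.add_sub_cancel]
  have h3 : ‖((M : ℂ) ^ 2) * ∑ b ∈ Finset.Icc 1 B, F b‖ ≤ B * T + (M : ℝ) ^ 2 * (2 * (M : ℝ) ^ 2) := by
    calc _ = ‖(((M : ℂ) ^ 2) * ∑ b ∈ Finset.Icc 1 B, F b -
          ∑ b ∈ Finset.Icc 1 B, ∑ p ∈ Finset.Icc 1 M, ∑ q ∈ Finset.Icc 1 M, F (b + p * q)) +
          ∑ b ∈ Finset.Icc 1 B, ∑ p ∈ Finset.Icc 1 M, ∑ q ∈ Finset.Icc 1 M, F (b + p * q)‖ := by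
          congr 1; ring
      _ ≤ (M : ℝ) ^ 2 * (2 * (M : ℝ) ^ 2) + B * T := (norm_add_le _ _).trans (add_le_add h1 h2)
      _ = _ := by ring
  rw [norm_mul, norm_pow, Complex.norm_natCast] at h3
  have h4 : ‖∑ b ∈ Finset.Icc 1 B, F b‖ ≤ (B * T + (M : ℝ) ^ 2 * (2 * (M : ℝ) ^ 2)) / (M : ℝ) ^ 2 := by
    rw [le_div_iff₀ (by positivity)]
    linarith
  refine h4.trans (le_of_eq ?_)
  field_simp

end Pool.Agent.X121.ZS
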