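import Pool.Agent.X121.TV.Maj

set_option autoImplicit false

namespace Pool.Agent.X121.ZS

open Finset Filter Pool.Agent.X121.AB Pool.Agent.X121.TV
open Pool.Agent.Y93.VK (ee ee_add norm_ee ee_zero ee_neg ee_eq)

/-- a sum of values of the second Bernoulli polynomial -/
theorem sum_P (s M : ℝ) (hM : M ≠ 0) (n : ℕ) :
    ∑ j ∈ Finset.range n, (((s + j) / M) ^ 2 - (s + j) / M + 1 / 6) =
      (n * s ^ 2 + s * (n * (n - 1)) + (n - 1) * n * (2 * n - 1) / 6) / M ^ 2 -
        (n * s + n * (n - 1) / 2) / M + n / 6 := by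
  induction n with
  | zero => simp
  | succ n ih =>
    rw [Finset.sum_range_succ, ih]
    push_cast
    field_simp
    ring

theorem be_add_int (t : ℝ) (k : ℤ) : be (t + k) = be t := by
  unfold be
  rw [Int.fract_add_intCast]

theorem be_of {t : ℝ} (h0 : 0 ≤ t) (h1 : t < 1) : be t = t ^ 2 - t + 1 / 6 := by
  unfold be
  rw [Int.fract_eq_self.2 ⟨h0, h1⟩]

/-- the sum over the shifts -/
noncomputable def Sb (m : ℕ) (t : ℝ) : ℝ := ∑ a ∈ Finset.range m, be (t - a / m)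

theorem Sb_shift (m : ℕ) (hm : 1 ≤ m) (t : ℝ) : Sb m (t + 1 / m) = Sb m t := by
  have hm0 : (m : ℝ) ≠ 0 := by positivity
  obtain ⟨n, rfl⟩ : ∃ n, m = n + 1 := ⟨m - 1, by omega⟩
  unfold Sb
  rw [Finset.sum_range_succ', Finset.sum_range_succ]
  have e1 : ∀ k ∈ Finset.range n, be (t + 1 / ((n + 1 : ℕ) : ℝ) - ((k + 1 : ℕ) : ℝ) / ((n + 1 : ℕ) : ℝ)) =
      be (t - (k : ℝ) / ((n + 1 : ℕ) : ℝ)) := by
    intro k _
    congr 1
    field_simp
    push_cast
    ring
  rw [Finset.sum_congr rfl e1]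
  congr 1
  have e2 : t + 1 / ((n + 1 : ℕ) : ℝ) - ((0 : ℕ) : ℝ) / ((n + 1 : ℕ) : ℝ) =
      (t - (n : ℝ) / ((n + 1 : ℕ) : ℝ)) + ((1 : ℤ) : ℝ) := by
    field_simp
    push_cast
    ring
  rw [e2, be_add_int]

theorem Sb_shift_nat (m : ℕ) (hm : 1 ≤ m) (t : ℝ) (k : ℕ) : Sb m (t + k / m) = Sb m t := by
  induction k with
  | zero => simp
  | succ k ih =>
    rw [← ih, ← Sb_shift m hm (t + k / m)]
    congr 1
    push_cast
    ring

theorem Sb_shift_int (m : ℕ) (hm : 1 ≤ m) (t : ℝ) (k : ℤ) : Sb m (t + k / m) = Sb m t := by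
  rcases Int.eq_nat_or_neg k with ⟨n, rfl | rfl⟩
  · have := Sb_shift_nat m hm t n
    simpa using this
  · have := Sb_shift_nat m hm (t + ((-(n : ℤ) : ℤ) : ℝ) / m) n
    rw [← this]
    congr 1
    push_cast
    ring

/-- the multiplication formula -/
theorem Sb_eq (m : ℕ) (hm : 1 ≤ m) (t : ℝ) : Sb m t = be (m * t) / m := by
  have hm0 : (0 : ℝ) < m := by exact_mod_cast hm
  obtain ⟨s, hs⟩ : ∃ s : ℝ, s = Int.fract (m * t) := ⟨_, rfl⟩
  have hs0 : 0 ≤ s := by rw [hs]; exact Int.fract_nonneg _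
  have hs1 : s < 1 := by rw [hs]; exact Int.fract_lt_one _
  have h1 : Sb m t = Sb m ((s + (m - 1)) / m) := by
    rw [← Sb_shift_int m hm t ((m : ℤ) - 1 - ⌊(m : ℝ) * t⌋)]
    congr 1
    rw [hs]
    unfold Int.fract
    push_cast
    field_simp
    ring
  rw [h1]
  unfold Sb
  rw [← Finset.sum_range_reflect]
  have e1 : ∀ j ∈ Finset.range m, be ((s + (m - 1)) / m - ((m - 1 - j : ℕ) : ℝ) / m) =
      (((s + j) / m) ^ 2 - (s + j) / m + 1 / 6) := by
    intro j hj
    have hj' := Finset.mem_range.1 hj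
    have e2 : (s + (m - 1)) / m - ((m - 1 - j : ℕ) : ℝ) / m = (s + j) / m := by
      rw [← sub_div]
      congr 1
      rw [Nat.sub_sub, Nat.cast_sub (by omega)]
      push_cast
      ring
    rw [e2, be_of (by positivity)]
    rw [div_lt_one hm0]
    have : (j : ℝ) + 1 ≤ m := by exact_mod_cast hj'
    linarith
  rw [Finset.sum_congr rfl e1, sum_P s m hm0.ne' m]
  have e3 : be (m * t) = s ^ 2 - s + 1 / 6 := by
    unfold be
    rw [← hs]
  rw [e3]
  field_simp
  ring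

theorem be_lip {x d : ℝ} (h0 : 0 < d) (h1 : d ≤ 1) : be x - be (x - d) ≤ 2 * d ∧ be x - be (x + d) ≤ 2 * d := by
  constructor
  · have h := saw_ge h0 h1 (x - d)
    have h2 : saw (x - d) ≤ 1 / 2 := by
      unfold saw
      have := Int.fract_lt_one (x - d)
      linarith
    rw [show x - d + d = x by ring] at h
    nlinarith
  · have h := saw_le h0 h1 (x + d)
    have h2 : -(1 / 2) ≤ saw (x + d) := by
      unfold saw
      have := Int.fract_nonneg (x + d)
      linarith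
    rw [show x + d - d = x by ring] at h
    nlinarith

/-- a trigonometric majorant, with its formula -/
theorem exists_maj2 (T : ℕ) (hT : 1 ≤ T) {δ : ℝ} (hδ : 0 < δ) (hδ1 : δ ≤ 1) {u v : ℝ} (hu : 0 ≤ u)
    (huv : u ≤ v) (hv : v ≤ 1) :
    ∃ (g : ℝ → ℝ) (w : ℤ → ℂ), (∀ t : ℝ, ((g t : ℝ) : ℂ) = ∑ h ∈ Finset.Icc (-(T : ℤ)) T, w h * ee (h * t)) ∧
      (∀ t, 0 ≤ g t) ∧ (∀ t, u ≤ Int.fract t → Int.fract t < v → 1 ≤ g t) ∧
      w 0 = (((v - u) + δ + 1 / (δ * T) : ℝ) : ℂ) ∧ (∀ h, ‖w h‖ ≤ 4 / δ) ∧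
      ∀ t, g t = (v - u) + δ + 1 / (δ * T) + 1 / (2 * δ * Real.pi ^ 2) * (Pn T (t - v) -
        Pn T (t - (v + δ)) - Pn T (t - (u - δ)) + Pn T (t - u)) := by
  classical
  have hpi := Real.pi_pos
  have hpi3 := Real.pi_gt_three
  have hT0 : (1 : ℝ) ≤ T := by exact_mod_cast hT
  obtain ⟨c0, hc0⟩ : ∃ c0 : ℝ, c0 = (v - u) + δ + 1 / (δ * T) := ⟨_, rfl⟩
  have hmain : ∀ t : ℝ, (if u ≤ Int.fract t ∧ Int.fract t < v then (1 : ℝ) else 0) ≤
      c0 + 1 / (2 * δ * Real.pi ^ 2) * (Pn T (t - v) - Pn T (t - (v + δ)) -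
      Pn T (t - (u - δ)) + Pn T (t - u)) := by
    intro t
    rw [ind_eq hu huv hv t]
    have s1 := saw_le hδ hδ1 (t - v)
    have s2 := saw_ge hδ hδ1 (t - u)
    have a1 := (abs_le.1 (be_approx hT (t - v))).2
    have a2 := (abs_le.1 (be_approx hT (t - (v + δ)))).1
    have a3 := (abs_le.1 (be_approx hT (t - (u - δ)))).1
    have a4 := (abs_le.1 (be_approx hT (t - u))).2
    rw [show t - v - δ = t - (v + δ) by ring] at s1
    rw [show t - u + δ = t - (u - δ) by ring] at s2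
    have h1 : 2 * δ * (saw (t - v) - saw (t - u)) ≤
        (be (t - v) - be (t - (v + δ)) - be (t - (u - δ)) + be (t - u)) + 2 * δ ^ 2 := by
      linarith
    have h2 : Real.pi ^ 2 * (be (t - v) - be (t - (v + δ)) - be (t - (u - δ)) + be (t - u)) ≤
        (Pn T (t - v) - Pn T (t - (v + δ)) - Pn T (t - (u - δ)) + Pn T (t - u)) + 4 * (1 / T) := by
      linarith
    have h3 : (saw (t - v) - saw (t - u)) ≤
        (1 / (2 * δ)) * ((be (t - v) - be (t - (v + δ)) - be (t - (u - δ)) + be (t - u)) +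
          2 * δ ^ 2) := by
      rw [one_div, ← div_eq_inv_mul, le_div_iff₀ (by positivity)]
      linarith
    have h4 : (be (t - v) - be (t - (v + δ)) - be (t - (u - δ)) + be (t - u)) ≤
        (1 / Real.pi ^ 2) * ((Pn T (t - v) - Pn T (t - (v + δ)) - Pn T (t - (u - δ)) +
          Pn T (t - u)) + 4 * (1 / T)) := by
      rw [one_div, ← div_eq_inv_mul, le_div_iff₀ (by positivity)]
      linarith
    have h5 : (1 / (2 * δ)) * ((be (t - v) - be (t - (v + δ)) - be (t - (u - δ)) + be (t - u)) +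
          2 * δ ^ 2) ≤ (1 / (2 * δ)) * ((1 / Real.pi ^ 2) * ((Pn T (t - v) - Pn T (t - (v + δ)) -
          Pn T (t - (u - δ)) + Pn T (t - u)) + 4 * (1 / T)) + 2 * δ ^ 2) := by
      apply mul_le_mul_of_nonneg_left _ (by positivity)
      linarith
    have h6 : (1 / (2 * δ)) * ((1 / Real.pi ^ 2) * ((Pn T (t - v) - Pn T (t - (v + δ)) -
          Pn T (t - (u - δ)) + Pn T (t - u)) + 4 * (1 / T)) + 2 * δ ^ 2) =
        1 / (2 * δ * Real.pi ^ 2) * (Pn T (t - v) - Pn T (t - (v + δ)) -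
          Pn T (t - (u - δ)) + Pn T (t - u)) + (2 / Real.pi ^ 2) * (1 / (δ * T)) + δ := by
      have hT' : (T : ℝ) ≠ 0 := by linarith
      field_simp
      ring
    have h7 : (2 / Real.pi ^ 2) * (1 / (δ * T)) ≤ 1 / (δ * T) := by
      have : 2 / Real.pi ^ 2 ≤ 1 := by
        rw [div_le_one (by positivity)]
        nlinarith
      have h8 : 0 ≤ 1 / (δ * T) := by positivity
      nlinarith
    rw [hc0]
    linarith
  refine ⟨fun t => c0 + 1 / (2 * δ * Real.pi ^ 2) * (Pn T (t - v) - Pn T (t - (v + δ)) -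
      Pn T (t - (u - δ)) + Pn T (t - u)),
    fun h => (if h = 0 then (c0 : ℂ) else 0) + 1 / (2 * δ * Real.pi ^ 2) * (1 / (2 * (h : ℂ) ^ 2) *
      (ee (-(h * v)) - ee (-(h * (v + δ))) - ee (-(h * (u - δ))) + ee (-(h * u)))), ?_, ?_, ?_, ?_, ?_, ?_⟩
  · intro t
    have h1 : ∀ h : ℤ, ((if h = 0 then (c0 : ℂ) else 0) + 1 / (2 * δ * Real.pi ^ 2) *
        (1 / (2 * (h : ℂ) ^ 2) * (ee (-(h * v)) - ee (-(h * (v + δ))) - ee (-(h * (u - δ))) +
          ee (-(h * u))))) * ee (h * t) = (if h = 0 then (c0 : ℂ) else 0) * ee (h * t) +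
        1 / (2 * δ * Real.pi ^ 2) * (((1 / (2 * (h : ℂ) ^ 2) * ee (-(h * v))) * ee (h * t) -
          (1 / (2 * (h : ℂ) ^ 2) * ee (-(h * (v + δ)))) * ee (h * t) -
          (1 / (2 * (h : ℂ) ^ 2) * ee (-(h * (u - δ)))) * ee (h * t)) +
          (1 / (2 * (h : ℂ) ^ 2) * ee (-(h * u))) * ee (h * t)) := by
      intro h; ring
    simp only [h1]
    rw [Finset.sum_add_distrib, ← Finset.mul_sum, Finset.sum_add_distrib, Finset.sum_sub_distrib,
      Finset.sum_sub_distrib, ← Pn_eq, ← Pn_eq, ← Pn_eq, ← Pn_eq]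
    have h2 : ∑ h ∈ Finset.Icc (-(T : ℤ)) T, (if h = 0 then (c0 : ℂ) else 0) * ee (h * t) = c0 := by
      rw [Finset.sum_eq_single_of_mem 0 (by rw [Finset.mem_Icc]; omega)]
      · simp [ee_zero]
      · intro b _ hb
        rw [if_neg hb, zero_mul]
    rw [h2]
    push_cast
    ring
  · intro t
    refine le_trans ?_ (hmain t)
    split_ifs <;> norm_num
  · intro t h1 h2
    have := hmain t
    rw [if_pos ⟨h1, h2⟩] at this
    exact this
  · simp [hc0]
  · intro h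
    have hd : (1 : ℝ) ≤ 1 / δ := by rw [le_div_iff₀ hδ]; linarith
    have hc0' : 0 ≤ c0 := by
      rw [hc0]
      have : 0 ≤ 1 / (δ * T) := by positivity
      linarith
    have hc1 : c0 ≤ 3 / δ := by
      rw [hc0]
      have h1 : v - u ≤ 1 := by linarith
      have h2 : 1 / (δ * T) ≤ 1 / δ := by
        apply one_div_le_one_div_of_le hδ
        exact le_mul_of_one_le_right hδ.le hT0
      have e : 3 / δ = 1 / δ + 1 / δ + 1 / δ := by ring
      rw [e]
      linarith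
    by_cases hh : h = 0
    · subst hh
      simp only [if_true, Int.cast_zero]
      norm_num
      rw [abs_of_nonneg hc0']
      refine hc1.trans ?_
      gcongr
      norm_num
    · beta_reduce
      rw [if_neg hh, zero_add, norm_mul, norm_mul]
      have hh1 : (1 : ℝ) ≤ |(h : ℝ)| := by
        have := Int.one_le_abs hh
        exact_mod_cast this
      have e1 : ‖(1 / (2 * (δ : ℂ) * (Real.pi : ℂ) ^ 2) : ℂ)‖ ≤ 1 / δ := by
        rw [norm_div, norm_one, norm_mul, norm_mul, norm_pow, Complex.norm_real, Complex.norm_real,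
          Real.norm_eq_abs, Real.norm_eq_abs, abs_of_pos hδ, abs_of_pos hpi, Complex.norm_ofNat]
        apply one_div_le_one_div_of_le hδ
        have : 1 ≤ 2 * Real.pi ^ 2 := by nlinarith
        nlinarith
      have e2 : ‖(1 / (2 * (h : ℂ) ^ 2) : ℂ)‖ ≤ 1 := by
        rw [norm_div, norm_one, norm_mul, norm_pow, Complex.norm_ofNat, Complex.norm_intCast,
          div_le_one (by positivity)]
        nlinarith
      have e3 : ‖(ee (-(h * v)) - ee (-(h * (v + δ))) - ee (-(h * (u - δ))) + ee (-(h * u)) : ℂ)‖ ≤ 4 := by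
        calc _ ≤ ‖ee (-(h * v)) - ee (-(h * (v + δ))) - ee (-(h * (u - δ)))‖ + ‖ee (-(h * u))‖ :=
              norm_add_le _ _
          _ ≤ (‖ee (-(h * v)) - ee (-(h * (v + δ)))‖ + ‖ee (-(h * (u - δ)))‖) + ‖ee (-(h * u))‖ := by
              gcongr; exact norm_sub_le _ _
          _ ≤ ((‖ee (-(h * v))‖ + ‖ee (-(h * (v + δ)))‖) + ‖ee (-(h * (u - δ)))‖) + ‖ee (-(h * u))‖ := by
              gcongr; exact norm_sub_le _ _
          _ = 4 := by rw [norm_ee, norm_ee, norm_ee, norm_ee]; norm_num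
      calc _ ≤ (1 / δ) * (1 * 4) := by
            apply mul_le_mul e1 _ (by positivity) (by positivity)
            exact mul_le_mul e2 e3 (norm_nonneg _) (by norm_num)
        _ = 4 / δ := by ring
  · intro t
    simp only [hc0]

end Pool.Agent.X121.ZS
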