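import Pool.Agent.X121.ZS.Loc

set_option autoImplicit false

namespace Pool.Agent.X121.ZS

open Finset Pool.Agent.Y957.VK Filter Pool.Agent.X121.AB
open Pool.Agent.Y93.VK (ee ee_add norm_ee)

theorem ev_exp_pow (C : ℝ) (κ : ℝ) (hκ : 0 < κ) (n k : ℕ) (hk : 2 ≤ k) {ε : ℝ} (hε : 0 < ε) :
    ∀ᶠ y : ℝ in atTop, C * y ^ n * Real.exp (-(κ * y ^ k)) ≤ ε := by
  filter_upwards [ev_pow_exp |C| n hε, eventually_ge_atTop (1 : ℝ),
    ev_pow_ge 1 κ hκ (k - 1) (by omega)] with y h1 h2 h3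
  have hy0 : 0 < y := by linarith
  have h4 : y ≤ κ * y ^ k := by
    have h5 : 1 * y ≤ κ * y ^ (k - 1) * y := mul_le_mul_of_nonneg_right h3 hy0.le
    have h6 : κ * y ^ (k - 1) * y = κ * y ^ k := by
      rw [mul_assoc, ← pow_succ, Nat.sub_add_cancel (by omega)]
    linarith
  calc C * y ^ n * Real.exp (-(κ * y ^ k)) ≤ |C| * y ^ n * Real.exp (-y) := by
        gcongr
        exact le_abs_self C
    _ ≤ ε := h1

/-- the choice of the index -/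
theorem exists_index {μ κ : ℝ} (hμ : 0 < μ) (hμ1 : μ ≤ 1 / 4) (hκ : 2 / μ ≤ κ) :
    ∃ d : ℕ, 1 ≤ d ∧ κ + 1 / 10 ≤ d * (1 - μ) ∧ d * (1 - 2 * μ) ≤ κ - 1 / 10 ∧ (d : ℝ) ≤ 2 * κ := by
  have hκ8 : 8 ≤ κ := by
    have : 8 ≤ 2 / μ := by
      rw [le_div_iff₀ hμ]
      linarith
    linarith
  have hμκ : 2 ≤ κ * μ := by
    rw [div_le_iff₀ hμ] at hκ
    exact hκ
  refine ⟨⌈(κ + 1 / 10) / (1 - μ)⌉₊, ?_, ?_, ?_, ?_⟩
  · rw [Nat.one_le_ceil_iff]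
    apply div_pos <;> linarith
  · have h1 := Nat.le_ceil ((κ + 1 / 10) / (1 - μ))
    rw [div_le_iff₀ (by linarith)] at h1
    exact h1
  · have h1 := Nat.ceil_lt_add_one (a := (κ + 1 / 10) / (1 - μ)) (by
      apply div_nonneg <;> linarith)
    have h2 : (κ + 1 / 10) / (1 - μ) * (1 - 2 * μ) ≤ (κ + 1 / 10) * (1 - μ) := by
      rw [div_mul_eq_mul_div, div_le_iff₀ (by linarith)]
      nlinarith
    have h3 : (⌈(κ + 1 / 10) / (1 - μ)⌉₊ : ℝ) * (1 - 2 * μ) ≤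
        ((κ + 1 / 10) / (1 - μ) + 1) * (1 - 2 * μ) := by
      apply mul_le_mul_of_nonneg_right h1.le
      linarith
    nlinarith
  · have h1 := Nat.ceil_lt_add_one (a := (κ + 1 / 10) / (1 - μ)) (by
      apply div_nonneg <;> linarith)
    have h2 : (κ + 1 / 10) / (1 - μ) ≤ 2 * κ - 1 := by
      rw [div_le_iff₀ (by linarith)]
      nlinarith
    linarith


/-- the size of the good coefficient -/
theorem coeff_num {θ C c : ℝ} (hθ0 : 0 < θ) (hC : ∀ j, |bc θ j| ≤ C) (hc0 : 0 < c)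
    (hc : ∀ j : ℕ, c ^ j / j.factorial ≤ |bc θ j|) {ℓ μ κ f Nr : ℝ} (hℓ : 0 ≤ ℓ)
    (hN : Nr = Real.exp ℓ) (hf : |f| * Nr ^ θ = Real.exp (κ * ℓ)) {n d M s : ℕ} (hn1 : Nr ≤ n)
    (hn2 : (n : ℝ) ≤ 2 * Nr) (hM1 : Real.exp (μ * ℓ) / 2 ≤ M) (hM2 : (M : ℝ) ≤ Real.exp (μ * ℓ))
    (hd1 : κ + 1 / 10 ≤ d * (1 - μ)) (hd2 : d * (1 - 2 * μ) ≤ κ - 1 / 10) :
    aj θ f n d ≠ 0 ∧
    |aj θ f n d| * (s * M ^ d : ℕ) ≤ C * 2 ^ θ * s * Real.exp (-(ℓ / 10)) ∧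
    1 / |aj θ f n d| ≤ (M : ℝ) ^ (2 * d) * ((8 / c) ^ d * d.factorial * Real.exp (-(ℓ / 10))) := by
  have hNr0 : 0 < Nr := by rw [hN]; exact Real.exp_pos _
  have hn0 : (0 : ℝ) < n := lt_of_lt_of_le hNr0 hn1
  have hf0 : 0 < |f| := by
    have h1 : 0 < |f| * Nr ^ θ := by rw [hf]; exact Real.exp_pos _
    exact pos_of_mul_pos_left h1 (by positivity)
  have hbc0 : 0 < |bc θ d| := lt_of_lt_of_le (by positivity) (hc d)
  have hC0 : 0 ≤ C := (abs_nonneg _).trans (hC 0)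
  have ea : |aj θ f n d| = |f| * |bc θ d| * ((n : ℝ) ^ θ / (n : ℝ) ^ d) := by
    unfold aj
    rw [abs_mul, abs_mul, abs_of_pos (Real.rpow_pos_of_pos hn0 _), Real.rpow_sub hn0,
      Real.rpow_natCast]
  have hM0 : (0 : ℝ) < M := lt_of_lt_of_le (by positivity) hM1
  have hNd : Nr ^ d = Real.exp (d * ℓ) := by rw [hN, ← Real.exp_nat_mul]
  have hne : aj θ f n d ≠ 0 := by
    rw [← abs_pos, ea]
    positivity
  refine ⟨hne, ?_, ?_⟩
  · -- upper bound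
    have h1 : (n : ℝ) ^ θ / (n : ℝ) ^ d ≤ 2 ^ θ * (Nr ^ θ / Nr ^ d) := by
      have h2 : (n : ℝ) ^ θ ≤ 2 ^ θ * Nr ^ θ := by
        rw [← Real.mul_rpow (by norm_num) hNr0.le]
        exact Real.rpow_le_rpow hn0.le hn2 hθ0.le
      calc (n : ℝ) ^ θ / (n : ℝ) ^ d ≤ (2 ^ θ * Nr ^ θ) / Nr ^ d := by
            gcongr
        _ = _ := by ring
    have h3 : (M : ℝ) ^ d ≤ Real.exp (d * (μ * ℓ)) := by
      rw [Real.exp_nat_mul]
      exact pow_le_pow_left₀ hM0.le hM2 d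
    rw [ea]
    push_cast
    calc |f| * |bc θ d| * ((n : ℝ) ^ θ / (n : ℝ) ^ d) * (s * (M : ℝ) ^ d) ≤
        |f| * C * (2 ^ θ * (Nr ^ θ / Nr ^ d)) * (s * Real.exp (d * (μ * ℓ))) := by
          gcongr
          exact hC d
      _ = C * 2 ^ θ * s * ((|f| * Nr ^ θ) * Real.exp (d * (μ * ℓ)) / Nr ^ d) := by ring
      _ = C * 2 ^ θ * s * Real.exp (κ * ℓ + d * (μ * ℓ) - d * ℓ) := by
          rw [hf, hNd, Real.exp_sub, Real.exp_add]
      _ ≤ C * 2 ^ θ * s * Real.exp (-(ℓ / 10)) := by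
          gcongr
          nlinarith
  · -- lower bound
    have h1 : Nr ^ θ / (2 ^ d * Nr ^ d) ≤ (n : ℝ) ^ θ / (n : ℝ) ^ d := by
      rw [← mul_pow]
      gcongr
    have h2 : (c ^ d / d.factorial) * (Real.exp (κ * ℓ) / (2 ^ d * Nr ^ d)) ≤ |aj θ f n d| := by
      rw [ea, ← hf]
      calc (c ^ d / d.factorial) * (|f| * Nr ^ θ / (2 ^ d * Nr ^ d)) =
          |f| * (c ^ d / d.factorial) * (Nr ^ θ / (2 ^ d * Nr ^ d)) := by ring
        _ ≤ _ := by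
            gcongr
            exact hc d
    have h3 : 1 / |aj θ f n d| ≤ 1 / ((c ^ d / d.factorial) * (Real.exp (κ * ℓ) / (2 ^ d * Nr ^ d))) :=
      one_div_le_one_div_of_le (by positivity) h2
    have h4 : Real.exp (2 * d * (μ * ℓ)) / 4 ^ d ≤ (M : ℝ) ^ (2 * d) := by
      have h5 : (Real.exp (μ * ℓ) / 2) ^ (2 * d) ≤ (M : ℝ) ^ (2 * d) :=
        pow_le_pow_left₀ (by positivity) hM1 _
      have h6 : (Real.exp (μ * ℓ) / 2) ^ (2 * d) = Real.exp (2 * d * (μ * ℓ)) / 4 ^ d := by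
        rw [div_pow, ← Real.exp_nat_mul, pow_mul (2 : ℝ) 2 d]
        push_cast
        norm_num
      rw [h6] at h5
      exact h5
    refine h3.trans ?_
    have h7 : 1 / ((c ^ d / d.factorial) * (Real.exp (κ * ℓ) / (2 ^ d * Nr ^ d))) =
        (2 / c) ^ d * d.factorial * Real.exp (d * ℓ - κ * ℓ) := by
      rw [hNd, Real.exp_sub, div_pow]
      field_simp
    rw [h7]
    have h8 : Real.exp (d * ℓ - κ * ℓ) ≤ Real.exp (2 * d * (μ * ℓ)) * Real.exp (-(ℓ / 10)) := by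
      rw [← Real.exp_add]
      apply Real.exp_le_exp.2
      nlinarith
    calc (2 / c) ^ d * d.factorial * Real.exp (d * ℓ - κ * ℓ) ≤
        (2 / c) ^ d * d.factorial * (Real.exp (2 * d * (μ * ℓ)) * Real.exp (-(ℓ / 10))) := by gcongr
      _ = (Real.exp (2 * d * (μ * ℓ)) / 4 ^ d) * ((8 / c) ^ d * d.factorial * Real.exp (-(ℓ / 10))) := by
          have : (8 / c) ^ d = (2 / c) ^ d * 4 ^ d := by
            rw [← mul_pow]
            congr 1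
            ring
          rw [this]
          field_simp
      _ ≤ _ := by gcongr

end Pool.Agent.X121.ZS
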