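import Pool.Agent.X121.AB.TSmall

set_option autoImplicit false

namespace Pool.Agent.X121.ZS

open Finset Pool.Agent.Y957.VK Filter Pool.Agent.X121.AB

theorem prod_WJg {s M r d : ℕ} (hs : 1 ≤ s) (hM : 1 ≤ M) (hd : d ∈ Finset.Icc 1 r) (α : ℕ → ℝ)
    {ω : ℝ} (h : WJ s M d (α d) ≤ (((3 * (s * M ^ d) : ℕ) : ℝ)) ^ 2 * ω) :
    ∏ j ∈ Finset.Icc 1 r, WJ s M j (α j) ≤
      (((3 * s : ℕ) : ℝ) ^ (2 * r) * (M : ℝ) ^ (r * (r + 1))) * ω := by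
  classical
  rw [← prod_sq, ← Finset.mul_prod_erase _ _ hd, ← Finset.mul_prod_erase (Finset.Icc 1 r)
    (fun j => (((3 * (s * M ^ j) : ℕ) : ℝ)) ^ 2) hd]
  have h2 : ∀ j, (2 * ((s * M ^ j : ℕ) : ℝ) + 1) ^ 2 ≤ (((3 * (s * M ^ j) : ℕ) : ℝ)) ^ 2 := by
    intro j
    have h3 : 1 ≤ s * M ^ j := Nat.mul_pos hs (pow_pos hM j)
    have h4 : (1 : ℝ) ≤ ((s * M ^ j : ℕ) : ℝ) := by exact_mod_cast h3
    have h5 : (((3 * (s * M ^ j) : ℕ) : ℝ)) = 3 * ((s * M ^ j : ℕ) : ℝ) := by push_cast; ring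
    rw [h5]
    apply pow_le_pow_left₀ (by positivity)
    linarith
  have h4 : ∏ j ∈ (Finset.Icc 1 r).erase d, WJ s M j (α j) ≤
      ∏ j ∈ (Finset.Icc 1 r).erase d, (((3 * (s * M ^ j) : ℕ) : ℝ)) ^ 2 :=
    Finset.prod_le_prod (fun j _ => WJ_nonneg _ _ _ _) fun j _ =>
      ((Pool.Agent.Y331.VK.wb s M j (α j) hs hM).1).trans (h2 j)
  have h5 : 0 ≤ (((3 * (s * M ^ d) : ℕ) : ℝ)) ^ 2 * ω := (WJ_nonneg _ _ _ _).trans h
  calc _ ≤ ((((3 * (s * M ^ d) : ℕ) : ℝ)) ^ 2 * ω) *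
        ∏ j ∈ (Finset.Icc 1 r).erase d, (((3 * (s * M ^ j) : ℕ) : ℝ)) ^ 2 :=
        mul_le_mul h h4 (Finset.prod_nonneg fun j _ => WJ_nonneg _ _ _ _) h5
    _ = _ := by ring

theorem TT_gen {r d m M : ℕ} (hr : 2 ≤ r) (hd : d ∈ Finset.Icc 1 r) (hM1 : 1 ≤ M) (α : ℕ → ℝ)
    {ω : ℝ} (h : WJ (r ^ 2 + r * m) M d (α d) ≤
      (((3 * ((r ^ 2 + r * m) * M ^ d) : ℕ) : ℝ)) ^ 2 * ω) :
    ‖TT r M α‖ ^ (4 * (r ^ 2 + r * m) ^ 2) ≤
      (M : ℝ) ^ (8 * (r ^ 2 + r * m) ^ 2) *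
        (Real.exp (18 * m * ((r : ℝ) + m + 2) ^ 5) * ((3 * (r ^ 2 + r * m) : ℕ) : ℝ) ^ (2 * r) *
          (M : ℝ) ^ ((r : ℝ) * (r + 1) * (1 - 1 / (r : ℝ)) ^ m) * ω) := by
  obtain ⟨s, hs⟩ : ∃ s : ℕ, s = r ^ 2 + r * m := ⟨_, rfl⟩
  have hs1 : 1 ≤ s := by rw [hs]; have : 1 ≤ r ^ 2 := Nat.one_le_pow _ _ (by omega); omega
  have hJ := Pool.Agent.Y901.VK.main rec_all Pool.Agent.Y911.VK.cond hr m M hM1
  rw [← hs] at hJ ⊢ h
  have h1 := dbl_all s r M α hs1 (by omega) hM1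
  have h2 := prod_WJg hs1 hM1 hd α h
  have hM0 : (0 : ℝ) < M := by exact_mod_cast hM1
  have hJ2 : (J s r M : ℝ) ^ 2 ≤ Real.exp (18 * m * ((r : ℝ) + m + 2) ^ 5) *
      (M : ℝ) ^ (2 * Pool.Agent.Y901.VK.Ee r m) := by
    calc (J s r M : ℝ) ^ 2 ≤ (Real.exp (9 * m * ((r : ℝ) + m + 2) ^ 5) *
          (M : ℝ) ^ Pool.Agent.Y901.VK.Ee r m) ^ 2 := pow_le_pow_left₀ (Nat.cast_nonneg _) hJ 2
      _ = _ := by
          rw [mul_pow, ← Real.exp_nat_mul, ← Real.rpow_natCast ((M : ℝ) ^ _), ← Real.rpow_mul hM0.le]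
          congr 2
          · push_cast; ring
          · push_cast; ring
  refine h1.trans ?_
  have hsR : (s : ℝ) = (r : ℝ) ^ 2 + r * m := by rw [hs]; push_cast; ring
  have h48 : 4 * s ≤ 8 * s ^ 2 := by nlinarith
  have hpow : (M : ℝ) ^ (8 * s ^ 2 - 4 * s) * (M : ℝ) ^ (2 * Pool.Agent.Y901.VK.Ee r m) *
      (M : ℝ) ^ (r * (r + 1)) =
      (M : ℝ) ^ (8 * s ^ 2) * (M : ℝ) ^ ((r : ℝ) * (r + 1) * (1 - 1 / (r : ℝ)) ^ m) := by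
    rw [← Real.rpow_natCast (M : ℝ) (8 * s ^ 2 - 4 * s), ← Real.rpow_natCast (M : ℝ) (r * (r + 1)),
      ← Real.rpow_natCast (M : ℝ) (8 * s ^ 2), ← Real.rpow_add hM0, ← Real.rpow_add hM0,
      ← Real.rpow_add hM0]
    congr 1
    rw [Nat.cast_sub h48]
    unfold Pool.Agent.Y901.VK.Ee
    push_cast
    rw [hsR]
    ring
  calc (M : ℝ) ^ (8 * s ^ 2 - 4 * s) * (J s r M : ℝ) ^ 2 * ∏ j ∈ Finset.Icc 1 r, WJ s M j (α j)
      ≤ (M : ℝ) ^ (8 * s ^ 2 - 4 * s) * (Real.exp (18 * m * ((r : ℝ) + m + 2) ^ 5) *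
      (M : ℝ) ^ (2 * Pool.Agent.Y901.VK.Ee r m)) * ((((3 * s : ℕ) : ℝ) ^ (2 * r) *
        (M : ℝ) ^ (r * (r + 1))) * ω) := by
        apply mul_le_mul _ h2 (Finset.prod_nonneg fun j _ => WJ_nonneg _ _ _ _) (by positivity)
        exact mul_le_mul_of_nonneg_left hJ2 (by positivity)
    _ = ((M : ℝ) ^ (8 * s ^ 2 - 4 * s) * (M : ℝ) ^ (2 * Pool.Agent.Y901.VK.Ee r m) *
      (M : ℝ) ^ (r * (r + 1))) * (Real.exp (18 * m * ((r : ℝ) + m + 2) ^ 5) *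
        ((3 * s : ℕ) : ℝ) ^ (2 * r) * ω) := by ring
    _ = _ := by rw [hpow]; ring

theorem TT_sm {κ : ℝ} (hκ : 0 < κ) :
    ∀ᶠ y : ℝ in atTop, ∀ (r d M : ℕ) (α : ℕ → ℝ), 2 ≤ r → (r : ℝ) ≤ y ^ 10 →
      d ∈ Finset.Icc 1 r → 1 ≤ M → Real.log M ≤ y ^ 70 →
      WJ (r ^ 2 + r * (r * ⌈y⌉₊)) M d (α d) ≤
        (((3 * ((r ^ 2 + r * (r * ⌈y⌉₊)) * M ^ d) : ℕ) : ℝ)) ^ 2 * Real.exp (-(κ * y ^ 70)) →
      ‖TT r M α‖ ≤ (M : ℝ) ^ 2 * Real.exp (-(y ^ 21)) := by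
  filter_upwards [eventually_ge_atTop (1 : ℝ), ev_pow_exp 2 20 (ε := κ / 8) (by positivity),
    ev_pow_ge (8 * 112518) κ hκ 4 (by norm_num),
    ev_pow_ge 72 κ hκ 7 (by norm_num)] with y hy1 hy2 hy3 hy4
  intro r d M α hr hry hd hM1 hℓ hα
  have hy0 : (0 : ℝ) < y := by linarith
  obtain ⟨K, hK⟩ : ∃ K : ℕ, K = ⌈y⌉₊ := ⟨_, rfl⟩
  have hKy : y ≤ K := by rw [hK]; exact Nat.le_ceil y
  have hK2 : (K : ℝ) ≤ 2 * y := by
    have := Nat.ceil_lt_add_one hy0.le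
    rw [← hK] at this
    linarith
  rw [← hK] at hα
  have hr2 : (2 : ℝ) ≤ r := by exact_mod_cast hr
  have hr0 : (0 : ℝ) < r := by linarith
  have hmain := TT_gen hr hd hM1 α hα
  obtain ⟨s, hs⟩ : ∃ s : ℕ, s = r ^ 2 + r * (r * K) := ⟨_, rfl⟩
  have hs1 : 1 ≤ s := by rw [hs]; have : 1 ≤ r ^ 2 := Nat.one_le_pow _ _ (by omega); omega
  have hM0 : (0 : ℝ) < M := by exact_mod_cast hM1
  rw [← hs] at hmain
  obtain ⟨ℓ, hℓd⟩ : ∃ ℓ : ℝ, ℓ = Real.log M := ⟨_, rfl⟩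
  rw [← hℓd] at hℓ
  have hℓ0 : 0 ≤ ℓ := by rw [hℓd]; exact Real.log_nonneg (by exact_mod_cast hM1)
  have hMe : (M : ℝ) = Real.exp ℓ := by rw [hℓd, Real.exp_log hM0]
  -- powers of y
  have yp : ∀ a b : ℕ, a ≤ b → y ^ a ≤ y ^ b := fun a b hab => pow_le_pow_right₀ hy1 hab
  have hy1' : ∀ a : ℕ, 1 ≤ y ^ a := fun a => one_le_pow₀ hy1
  have hm : (((r * K : ℕ)) : ℝ) ≤ 2 * y ^ 11 := by
    push_cast
    calc (r : ℝ) * K ≤ y ^ 10 * (2 * y) := mul_le_mul hry hK2 (Nat.cast_nonneg _) (by positivity)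
      _ = 2 * y ^ 11 := by ring
  have hsR : (s : ℝ) ≤ 3 * y ^ 21 := by
    have e : (s : ℝ) = (r : ℝ) ^ 2 + r * ((r * K : ℕ) : ℝ) := by rw [hs]; push_cast; ring
    rw [e]
    have h1 : (r : ℝ) ^ 2 ≤ y ^ 21 := by
      calc (r : ℝ) ^ 2 ≤ (y ^ 10) ^ 2 := pow_le_pow_left₀ hr0.le hry 2
        _ = y ^ 20 := by ring
        _ ≤ y ^ 21 := yp _ _ (by norm_num)
    have h2 : (r : ℝ) * ((r * K : ℕ) : ℝ) ≤ 2 * y ^ 21 := by
      calc (r : ℝ) * ((r * K : ℕ) : ℝ) ≤ y ^ 10 * (2 * y ^ 11) :=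
            mul_le_mul hry hm (Nat.cast_nonneg _) (by positivity)
        _ = 2 * y ^ 21 := by ring
    linarith
  -- first factor
  have f1 : Real.exp (18 * ((r * K : ℕ) : ℝ) * ((r : ℝ) + ((r * K : ℕ) : ℝ) + 2) ^ 5) ≤
      Real.exp (112500 * y ^ 66) := by
    apply Real.exp_le_exp.2
    have h1 : (r : ℝ) + ((r * K : ℕ) : ℝ) + 2 ≤ 5 * y ^ 11 := by
      have := yp 10 11 (by norm_num)
      have := hy1' 11
      linarith
    calc 18 * ((r * K : ℕ) : ℝ) * ((r : ℝ) + ((r * K : ℕ) : ℝ) + 2) ^ 5 ≤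
        18 * (2 * y ^ 11) * (5 * y ^ 11) ^ 5 := by
          apply mul_le_mul
          · linarith
          · exact pow_le_pow_left₀ (by positivity) h1 5
          · positivity
          · positivity
      _ = 112500 * y ^ 66 := by ring
  -- second factor
  have f2 : ((3 * s : ℕ) : ℝ) ^ (2 * r) ≤ Real.exp (18 * y ^ 66) := by
    have h1 : ((3 * s : ℕ) : ℝ) ≤ Real.exp (9 * y ^ 21) := by
      have : ((3 * s : ℕ) : ℝ) ≤ 9 * y ^ 21 := by push_cast; linarith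
      have h2 := Real.add_one_le_exp (9 * y ^ 21)
      linarith
    calc ((3 * s : ℕ) : ℝ) ^ (2 * r) ≤ (Real.exp (9 * y ^ 21)) ^ (2 * r) :=
          pow_le_pow_left₀ (Nat.cast_nonneg _) h1 _
      _ = Real.exp (((2 * r : ℕ) : ℝ) * (9 * y ^ 21)) := by rw [← Real.exp_nat_mul]
      _ ≤ Real.exp (18 * y ^ 66) := by
          apply Real.exp_le_exp.2
          push_cast
          calc 2 * (r : ℝ) * (9 * y ^ 21) ≤ 2 * y ^ 10 * (9 * y ^ 21) := by gcongr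
            _ = 18 * y ^ 31 := by ring
            _ ≤ 18 * y ^ 66 := by
                have := yp 31 66 (by norm_num)
                linarith
  -- third factor
  have f3 : (M : ℝ) ^ ((r : ℝ) * (r + 1) * (1 - 1 / (r : ℝ)) ^ (r * K)) ≤
      Real.exp (κ / 8 * y ^ 70) := by
    rw [hMe, ← Real.exp_mul]
    apply Real.exp_le_exp.2
    have h0 : (0 : ℝ) ≤ 1 - 1 / (r : ℝ) := by
      rw [sub_nonneg, div_le_one hr0]
      linarith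
    have h1 : (1 - 1 / (r : ℝ)) ^ (r * K) ≤ Real.exp (-y) := by
      calc (1 - 1 / (r : ℝ)) ^ (r * K) ≤ (Real.exp (-(1 / (r : ℝ)))) ^ (r * K) := by
            apply pow_le_pow_left₀ h0
            have := Real.add_one_le_exp (-(1 / (r : ℝ)))
            linarith
        _ = Real.exp (((r * K : ℕ) : ℝ) * (-(1 / (r : ℝ)))) := by rw [← Real.exp_nat_mul]
        _ = Real.exp (-(K : ℝ)) := by
            congr 1
            push_cast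
            field_simp
        _ ≤ Real.exp (-y) := Real.exp_le_exp.2 (by linarith)
    have h2 : (r : ℝ) * (r + 1) ≤ 2 * y ^ 20 := by
      have h3 : (r : ℝ) + 1 ≤ 2 * y ^ 10 := by have := hy1' 10; linarith
      calc (r : ℝ) * (r + 1) ≤ y ^ 10 * (2 * y ^ 10) := mul_le_mul hry h3 (by positivity) (by positivity)
        _ = 2 * y ^ 20 := by ring
    have h3 : (r : ℝ) * (r + 1) * (1 - 1 / (r : ℝ)) ^ (r * K) ≤ 2 * y ^ 20 * Real.exp (-y) :=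
      mul_le_mul h2 h1 (by positivity) (by positivity)
    calc ℓ * ((r : ℝ) * (r + 1) * (1 - 1 / (r : ℝ)) ^ (r * K)) ≤
        y ^ 70 * (2 * y ^ 20 * Real.exp (-y)) :=
          mul_le_mul hℓ h3 (by positivity) (by positivity)
      _ = (2 * y ^ 20 * Real.exp (-y)) * y ^ 70 := by ring
      _ ≤ κ / 8 * y ^ 70 := by gcongr
  -- all together
  have hE : Real.exp (18 * ((r * K : ℕ) : ℝ) * ((r : ℝ) + ((r * K : ℕ) : ℝ) + 2) ^ 5) *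
      ((3 * s : ℕ) : ℝ) ^ (2 * r) *
      (M : ℝ) ^ ((r : ℝ) * (r + 1) * (1 - 1 / (r : ℝ)) ^ (r * K)) *
      Real.exp (-(κ * y ^ 70)) ≤ Real.exp (-(κ / 2 * y ^ 70)) := by
    calc _ ≤ Real.exp (112500 * y ^ 66) * Real.exp (18 * y ^ 66) * Real.exp (κ / 8 * y ^ 70) *
          Real.exp (-(κ * y ^ 70)) := by gcongr
      _ = Real.exp (112500 * y ^ 66 + 18 * y ^ 66 + κ / 8 * y ^ 70 + (-(κ * y ^ 70))) := by
          rw [Real.exp_add, Real.exp_add, Real.exp_add]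
      _ ≤ Real.exp (-(κ / 2 * y ^ 70)) := by
          apply Real.exp_le_exp.2
          have h3 : 8 * 112518 * y ^ 66 ≤ κ * y ^ 4 * y ^ 66 :=
            mul_le_mul_of_nonneg_right hy3 (by positivity)
          have h4 : κ * y ^ 4 * y ^ 66 = κ * y ^ 70 := by ring
          rw [h4] at h3
          have h5 : 0 ≤ κ * y ^ 70 := by positivity
          linarith
  have hfin : ‖TT r M α‖ ^ (4 * s ^ 2) ≤ ((M : ℝ) ^ 2 * Real.exp (-(y ^ 21))) ^ (4 * s ^ 2) := by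
    refine hmain.trans ?_
    rw [mul_pow, ← pow_mul, show 2 * (4 * s ^ 2) = 8 * s ^ 2 by ring]
    apply mul_le_mul_of_nonneg_left _ (by positivity)
    refine hE.trans ?_
    rw [← Real.exp_nat_mul]
    apply Real.exp_le_exp.2
    push_cast
    have h1 : (s : ℝ) ^ 2 ≤ 9 * y ^ 42 := by
      calc (s : ℝ) ^ 2 ≤ (3 * y ^ 21) ^ 2 := pow_le_pow_left₀ (Nat.cast_nonneg _) hsR 2
        _ = 9 * y ^ 42 := by ring
    have h2 : 4 * (s : ℝ) ^ 2 * y ^ 21 ≤ 36 * y ^ 63 := by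
      calc 4 * (s : ℝ) ^ 2 * y ^ 21 ≤ 4 * (9 * y ^ 42) * y ^ 21 := by gcongr
        _ = 36 * y ^ 63 := by ring
    have h3 : 72 * y ^ 63 ≤ κ * y ^ 7 * y ^ 63 := mul_le_mul_of_nonneg_right hy4 (by positivity)
    have h4 : κ * y ^ 7 * y ^ 63 = κ * y ^ 70 := by ring
    rw [h4] at h3
    linarith
  exact le_of_pow_le_pow_left₀ (by have : 1 ≤ s ^ 2 := Nat.one_le_pow _ _ hs1; omega) (by positivity) hfin

end Pool.Agent.X121.ZS
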