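import Pool.Agent.X121.ZS.Maj2
import Pool.Agent.X121.TV.Disc

set_option autoImplicit false

namespace Pool.Agent.X121.ZS

open Finset Filter MeasureTheory Pool.Agent.X121.AB Pool.Agent.X121.TV
open Pool.Agent.Y93.VK (ee ee_add norm_ee ee_zero ee_neg ee_eq)

/-- comparison of two distributions on a finite set by means of a common majorant -/
theorem tv_abs {κ : Type*} [DecidableEq κ] (B : Finset κ) (p q g : κ → ℝ) {r η : ℝ} (hr : 0 ≤ r)
    (hp : ∀ a ∈ B, p a ≤ g a + r) (hq : ∀ a ∈ B, q a ≤ g a) (hg : ∑ a ∈ B, g a ≤ 1 + η)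
    (hp1 : ∑ a ∈ B, p a = 1) (hq1 : ∑ a ∈ B, q a = 1) (E : Finset κ) (hE : E ⊆ B) :
    |∑ a ∈ E, p a - ∑ a ∈ E, q a| ≤ η + B.card * r := by
  have key : ∀ F : Finset κ, F ⊆ B → ∑ a ∈ F, p a - ∑ a ∈ F, q a ≤ η + B.card * r := by
    intro F hF
    have h1 : ∑ a ∈ F, p a - ∑ a ∈ F, q a ≤ ∑ a ∈ F, (g a - q a) + F.card * r := by
      rw [← Finset.sum_sub_distrib, ← nsmul_eq_mul, ← Finset.sum_const, ← Finset.sum_add_distrib]
      refine Finset.sum_le_sum fun a ha => ?_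
      have := hp a (hF ha)
      linarith
    have h2 : ∑ a ∈ F, (g a - q a) ≤ ∑ a ∈ B, (g a - q a) :=
      Finset.sum_le_sum_of_subset_of_nonneg hF fun a ha _ => by
        have := hq a ha
        linarith
    have h3 : (F.card : ℝ) * r ≤ B.card * r := by
      have : (F.card : ℝ) ≤ B.card := by exact_mod_cast Finset.card_le_card hF
      gcongr
    have h4 : ∑ a ∈ B, (g a - q a) = ∑ a ∈ B, g a - 1 := by
      rw [Finset.sum_sub_distrib, hq1]
    linarith
  rw [abs_le]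
  refine ⟨?_, key E hE⟩
  have h1 := key (B \ E) Finset.sdiff_subset
  have h2 := Finset.sum_sdiff hE (f := p)
  have h3 := Finset.sum_sdiff hE (f := q)
  linarith

/-- a product of numbers `1 + R_i` -/
theorem prod_tel {ι : Type*} (s : Finset ι) (R : ι → ℝ) (h0 : ∀ i ∈ s, 0 ≤ R i)
    (h1 : ∀ i ∈ s, R i ≤ 4) : ∏ i ∈ s, (1 + R i) - 1 ≤ 5 ^ s.card * ∑ i ∈ s, R i := by
  classical
  induction s using Finset.induction_on with
  | empty => simp
  | insert a s ha ih =>
    rw [Finset.prod_insert ha, Finset.sum_insert ha, Finset.card_insert_of_notMem ha]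
    have ih' := ih (fun i hi => h0 i (Finset.mem_insert_of_mem hi))
      (fun i hi => h1 i (Finset.mem_insert_of_mem hi))
    have ha0 := h0 a (Finset.mem_insert_self _ _)
    have ha1 := h1 a (Finset.mem_insert_self _ _)
    have hS : 0 ≤ ∑ i ∈ s, R i := Finset.sum_nonneg fun i hi => h0 i (Finset.mem_insert_of_mem hi)
    have hP : ∏ i ∈ s, (1 + R i) ≤ 5 ^ s.card := by
      rw [← Finset.prod_const]
      refine Finset.prod_le_prod (fun i hi => ?_) fun i hi => ?_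
      · have := h0 i (Finset.mem_insert_of_mem hi); linarith
      · have := h1 i (Finset.mem_insert_of_mem hi); linarith
    have h5 : (1 : ℝ) ≤ 5 ^ s.card := one_le_pow₀ (by norm_num)
    have h6 : R a * ∏ i ∈ s, (1 + R i) ≤ R a * 5 ^ s.card := by gcongr
    have h7 : 0 ≤ 5 ^ s.card * ∑ i ∈ s, R i := by positivity
    have h8 : 0 ≤ R a * 5 ^ s.card := by positivity
    rw [pow_succ]
    nlinarith

/-- the values of the `m_i`-adic digits of the numbers `q_i x` -/
noncomputable def cl {ι : Type} (m : ι → ℕ) (q : ι → ℤ) (x : ℝ) : ι → ℕ :=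
  fun i => ⌊(m i : ℝ) * Int.fract ((q i : ℝ) * x)⌋₊

/-- the box -/
def bx {ι : Type} [Fintype ι] [DecidableEq ι] (m : ι → ℕ) : Finset (ι → ℕ) :=
  Fintype.piFinset fun i => Finset.range (m i)

theorem cl_mem {ι : Type} [Fintype ι] [DecidableEq ι] {m : ι → ℕ} (hm : ∀ i, 1 ≤ m i) (q : ι → ℤ)
    (x : ℝ) : cl m q x ∈ bx m := by
  rw [bx, Fintype.mem_piFinset]
  intro i
  rw [Finset.mem_range]
  unfold cl
  have hm0 : (0 : ℝ) < m i := by exact_mod_cast hm i
  rw [Nat.floor_lt (by have := Int.fract_nonneg ((q i : ℝ) * x); positivity)]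
  have := Int.fract_lt_one ((q i : ℝ) * x)
  nlinarith

theorem cl_meas {ι : Type} [Fintype ι] (m : ι → ℕ) (q : ι → ℤ) : Measurable (cl m q) := by
  rw [measurable_pi_iff]
  intro i
  unfold cl
  exact Nat.measurable_floor.comp ((measurable_fract.comp (measurable_const_mul _)).const_mul _)

theorem set_meas {ι : Type} [Fintype ι] (m : ι → ℕ) (q : ι → ℤ) (E : Set (ι → ℕ)) :
    MeasurableSet {x : ℝ | cl m q x ∈ E} :=
  (cl_meas m q) (Set.to_countable E).measurableSet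

/-- the family of the majorants of the `m` intervals -/
theorem maj_fam (m T : ℕ) (hm : 1 ≤ m) (hT : 1 ≤ T) {δ : ℝ} (hδ : 0 < δ) (hmδ : m * δ ≤ 1)
    (hmT : m / (δ * T) ≤ 1 / 2) :
    ∃ (g : ℕ → ℝ → ℝ) (w : ℕ → ℤ → ℂ),
      (∀ a < m, ∀ t : ℝ, ((g a t : ℝ) : ℂ) = ∑ h ∈ Finset.Icc (-(T : ℤ)) T, w a h * ee (h * t)) ∧
      (∀ a < m, ∀ t, 0 ≤ g a t) ∧
      (∀ a < m, ∀ t, (a : ℝ) / m ≤ Int.fract t → Int.fract t < ((a : ℝ) + 1) / m → 1 ≤ g a t) ∧
      (∀ a < m, w a 0 = ((1 / m + δ + 1 / (δ * T) : ℝ) : ℂ)) ∧ (∀ a < m, ∀ h, ‖w a h‖ ≤ 4 / δ) ∧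
      (∀ a < m, Continuous (g a)) ∧ (∀ t, ∑ a ∈ Finset.range m, g a t ≤ 5) := by
  have hm0 : (0 : ℝ) < m := by exact_mod_cast hm
  have hm1 : (1 : ℝ) ≤ m := by exact_mod_cast hm
  have hδ1 : δ ≤ 1 := by nlinarith
  have hT0 : (0 : ℝ) < T := by exact_mod_cast hT
  have hpi3 := Real.pi_gt_three
  have hex : ∀ a : ℕ, ∃ (g : ℝ → ℝ) (w : ℤ → ℂ), a < m →
      (∀ t : ℝ, ((g t : ℝ) : ℂ) = ∑ h ∈ Finset.Icc (-(T : ℤ)) T, w h * ee (h * t)) ∧
      (∀ t, 0 ≤ g t) ∧ (∀ t, (a : ℝ) / m ≤ Int.fract t → Int.fract t < ((a : ℝ) + 1) / m → 1 ≤ g t) ∧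
      w 0 = ((((((a : ℝ) + 1) / m - (a : ℝ) / m) + δ + 1 / (δ * T) : ℝ)) : ℂ) ∧ (∀ h, ‖w h‖ ≤ 4 / δ) ∧
      ∀ t, g t = (((a : ℝ) + 1) / m - (a : ℝ) / m) + δ + 1 / (δ * T) +
        1 / (2 * δ * Real.pi ^ 2) * (Pn T (t - ((a : ℝ) + 1) / m) -
        Pn T (t - (((a : ℝ) + 1) / m + δ)) - Pn T (t - ((a : ℝ) / m - δ)) + Pn T (t - (a : ℝ) / m)) := by
    intro a
    by_cases ha : a < m
    · have ha' : (a : ℝ) + 1 ≤ m := by exact_mod_cast ha
      obtain ⟨g, w, h⟩ := exists_maj2 T hT hδ hδ1 (u := (a : ℝ) / m) (v := ((a : ℝ) + 1) / m)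
        (by positivity) (by gcongr; linarith) (by rw [div_le_one hm0]; exact ha')
      exact ⟨g, w, fun _ => h⟩
    · exact ⟨fun _ => 0, fun _ => 0, fun h => absurd h ha⟩
  choose g w hgw using hex
  have hu : ∀ a : ℕ, ((a : ℝ) + 1) / m - (a : ℝ) / m = 1 / m := by
    intro a; rw [← sub_div]; congr 1; ring
  refine ⟨g, w, fun a ha => (hgw a ha).1, fun a ha => (hgw a ha).2.1, fun a ha => (hgw a ha).2.2.1,
    fun a ha => ?_, fun a ha => (hgw a ha).2.2.2.2.1, fun a ha => ?_, fun t => ?_⟩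
  · rw [(hgw a ha).2.2.2.1, hu]
  · have h1 : g a = fun t => (((a : ℝ) + 1) / m - (a : ℝ) / m) + δ + 1 / (δ * T) +
        1 / (2 * δ * Real.pi ^ 2) * (Pn T (t - ((a : ℝ) + 1) / m) -
        Pn T (t - (((a : ℝ) + 1) / m + δ)) - Pn T (t - ((a : ℝ) / m - δ)) + Pn T (t - (a : ℝ) / m)) := by
      funext t
      exact (hgw a ha).2.2.2.2.2 t
    rw [h1]
    unfold Pn
    fun_prop
  · -- the sum
    have hle : ∀ a ∈ Finset.range m, g a t ≤ 1 / m + δ + 1 / (δ * T) +
        1 / (2 * δ * Real.pi ^ 2) * (Real.pi ^ 2 * (be (t - 1 / m - (a : ℝ) / m) -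
          be (t - 1 / m - δ - (a : ℝ) / m) - be (t + δ - (a : ℝ) / m) + be (t - (a : ℝ) / m)) +
          4 / T) := by
      intro a ha
      rw [(hgw a (Finset.mem_range.1 ha)).2.2.2.2.2 t, hu]
      have a1 := (abs_le.1 (be_approx hT (t - 1 / m - (a : ℝ) / m))).1
      have a2 := (abs_le.1 (be_approx hT (t - 1 / m - δ - (a : ℝ) / m))).2
      have a3 := (abs_le.1 (be_approx hT (t + δ - (a : ℝ) / m))).2
      have a4 := (abs_le.1 (be_approx hT (t - (a : ℝ) / m))).1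
      have e1 : t - ((a : ℝ) + 1) / m = t - 1 / m - (a : ℝ) / m := by ring
      have e2 : t - (((a : ℝ) + 1) / m + δ) = t - 1 / m - δ - (a : ℝ) / m := by ring
      have e3 : t - ((a : ℝ) / m - δ) = t + δ - (a : ℝ) / m := by ring
      rw [e1, e2, e3]
      have e4 : (4 : ℝ) / T = 4 * (1 / T) := by ring
      rw [e4]
      apply add_le_add le_rfl
      apply mul_le_mul_of_nonneg_left _ (by positivity)
      linarith
    refine (Finset.sum_le_sum hle).trans ?_
    rw [Finset.sum_add_distrib, Finset.sum_const, Finset.card_range, nsmul_eq_mul, ← Finset.mul_sum,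
      Finset.sum_add_distrib, Finset.sum_const, Finset.card_range, nsmul_eq_mul, ← Finset.mul_sum,
      Finset.sum_add_distrib, Finset.sum_sub_distrib, Finset.sum_sub_distrib]
    have s1 : ∑ a ∈ Finset.range m, be (t - 1 / m - (a : ℝ) / m) = be (m * t) / m := by
      have := Sb_eq m hm (t - 1 / m)
      unfold Sb at this
      rw [this]
      congr 1
      rw [show (m : ℝ) * (t - 1 / m) = m * t + ((-1 : ℤ) : ℝ) by field_simp; push_cast; ring, be_add_int]
    have s2 : ∑ a ∈ Finset.range m, be (t - 1 / m - δ - (a : ℝ) / m) = be (m * t - m * δ) / m := by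
      have := Sb_eq m hm (t - 1 / m - δ)
      unfold Sb at this
      rw [this]
      congr 1
      rw [show (m : ℝ) * (t - 1 / m - δ) = (m * t - m * δ) + ((-1 : ℤ) : ℝ) by
        field_simp; push_cast; ring, be_add_int]
    have s3 : ∑ a ∈ Finset.range m, be (t + δ - (a : ℝ) / m) = be (m * t + m * δ) / m := by
      have := Sb_eq m hm (t + δ)
      unfold Sb at this
      rw [this]
      congr 2
      ring
    have s4 : ∑ a ∈ Finset.range m, be (t - (a : ℝ) / m) = be (m * t) / m := by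
      have := Sb_eq m hm t
      unfold Sb at this
      exact this
    rw [s1, s2, s3, s4]
    obtain ⟨l1, l2⟩ := be_lip (x := m * t) (d := m * δ) (by positivity) hmδ
    have h1 : be (m * t) / m - be (m * t - m * δ) / m - be (m * t + m * δ) / m + be (m * t) / m ≤
        4 * δ := by
      have e : be (m * t) / m - be (m * t - m * δ) / m - be (m * t + m * δ) / m + be (m * t) / m =
          ((be (m * t) - be (m * t - m * δ)) + (be (m * t) - be (m * t + m * δ))) / m := by ring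
      rw [e, div_le_iff₀ hm0]
      linarith
    have h2 : 1 / (2 * δ * Real.pi ^ 2) * (Real.pi ^ 2 * (be (m * t) / m - be (m * t - m * δ) / m -
        be (m * t + m * δ) / m + be (m * t) / m) + m * (4 / T)) ≤
        1 / (2 * δ * Real.pi ^ 2) * (Real.pi ^ 2 * (4 * δ) + m * (4 / T)) := by
      gcongr
    have h3 : 1 / (2 * δ * Real.pi ^ 2) * (Real.pi ^ 2 * (4 * δ) + m * (4 / T)) =
        2 + (2 / Real.pi ^ 2) * (m / (δ * T)) := by
      field_simp
      ring
    have h4 : (2 / Real.pi ^ 2) * (m / (δ * T)) ≤ 1 * (1 / 2) := by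
      apply mul_le_mul _ hmT (by positivity) (by norm_num)
      rw [div_le_one (by positivity)]
      nlinarith
    have h5 : (m : ℝ) * (1 / m + δ + 1 / (δ * T)) = 1 + m * δ + m / (δ * T) := by
      field_simp
    rw [h5]
    linarith

end Pool.Agent.X121.ZS
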