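import Pool.Agent.X121.ZS.Tv1

set_option autoImplicit false

namespace Pool.Agent.X121.ZS

open Finset Filter MeasureTheory Pool.Agent.X121.AB Pool.Agent.X121.TV
open Pool.Agent.Y93.VK (ee ee_add norm_ee ee_zero ee_neg ee_eq)

/-- Lebesgue measure on the unit interval -/
noncomputable def U : Measure ℝ := volume.restrict (Set.Ico (0 : ℝ) 1)

instance : IsProbabilityMeasure U := ⟨by simp [U]⟩

theorem cont_ee : Continuous ee := by
  have : ee = fun t : ℝ => ee t := rfl
  rw [this]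
  simp only [ee_eq]
  fun_prop

theorem cont_int {E : Type*} [NormedAddCommGroup E] {f : ℝ → E} (hf : Continuous f) : Integrable f U := by
  unfold U
  exact (hf.integrableOn_Icc (a := 0) (b := 1)).mono_set Set.Ico_subset_Icc_self

theorem int_ee (l : ℤ) (hl : l ≠ 0) : ∫ x, ee ((l : ℝ) * x) ∂U = 0 := by
  unfold U
  rw [integral_Ico_eq_integral_Ioo, ← integral_Ioc_eq_integral_Ioo,
    ← intervalIntegral.integral_of_le zero_le_one]
  have h1 : ∀ x : ℝ, ee (l * x) = Complex.exp ((2 * Real.pi * l * Complex.I) * x) := by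
    intro x
    rw [ee_eq]
    congr 1
    push_cast
    ring
  simp only [h1]
  have hc : (2 * Real.pi * l * Complex.I : ℂ) ≠ 0 := by
    refine mul_ne_zero (mul_ne_zero (mul_ne_zero two_ne_zero ?_) ?_) Complex.I_ne_zero
    · exact_mod_cast Real.pi_ne_zero
    · exact_mod_cast hl
  rw [integral_exp_mul_complex hc]
  have h2 : Complex.exp (2 * Real.pi * l * Complex.I * ((1 : ℝ) : ℂ)) = 1 := by
    rw [Complex.exp_eq_one_iff]
    exact ⟨l, by push_cast; ring⟩
  have h3 : Complex.exp (2 * Real.pi * l * Complex.I * ((0 : ℝ) : ℂ)) = 1 := by simp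
  rw [h2, h3, sub_self, zero_div]

theorem int_ee' (l : ℤ) : ∫ x, ee ((l : ℝ) * x) ∂U = if l = 0 then 1 else 0 := by
  split_ifs with h
  · subst h
    simp [ee_zero]
  · exact int_ee l h

/-- the frequencies -/
def fr {ι : Type} [Fintype ι] (q : ι → ℤ) (p : ι → ℤ) : ℤ := ∑ i, p i * q i

theorem G_exp {ι : Type} [Fintype ι] [DecidableEq ι] (q : ι → ℤ) (T : ℕ) (g : ι → ℝ → ℝ)
    (w : ι → ℤ → ℂ) (hg : ∀ i t, ((g i t : ℝ) : ℂ) = ∑ h ∈ Finset.Icc (-(T : ℤ)) T, w i h * ee (h * t))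
    (x : ℝ) :
    ((∏ i, g i (q i * x) : ℝ) : ℂ) = ∑ p ∈ Fintype.piFinset (fun _ : ι => Finset.Icc (-(T : ℤ)) T),
      (∏ i, w i (p i)) * ee ((fr q p : ℝ) * x) := by
  simp only [Complex.ofReal_prod, hg, Finset.prod_univ_sum]
  refine Finset.sum_congr rfl fun p _ => ?_
  rw [Finset.prod_mul_distrib]
  congr 1
  have : (fr q p : ℝ) * x = ∑ i, p i * (q i * x) := by
    unfold fr
    push_cast
    rw [Finset.sum_mul]
    refine Finset.sum_congr rfl fun i _ => by ring
  rw [this, ee_sum]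

theorem G_diff {ι : Type} [Fintype ι] [DecidableEq ι] (S : Finset ℕ) (hS : S.Nonempty) (Z : ℕ → ℝ)
    (q : ι → ℤ) (T : ℕ) (g : ι → ℝ → ℝ) (w : ι → ℤ → ℂ)
    (hg : ∀ i t, ((g i t : ℝ) : ℂ) = ∑ h ∈ Finset.Icc (-(T : ℤ)) T, w i h * ee (h * t))
    {W ε : ℝ} (hW : 0 ≤ W) (hε : 0 ≤ ε) (hw : ∀ i h, ‖w i h‖ ≤ W)
    (hX : ∀ h : ι → ℤ, (∀ i, |h i| ≤ T) → fr q h ≠ 0 →
      ‖∑ b ∈ S, ee ((fr q h : ℝ) * Z b)‖ ≤ ε * S.card) :
    |(∑ b ∈ S, ∏ i, g i (q i * Z b)) / S.card - ∫ x, ∏ i, g i (q i * x) ∂U| ≤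
      ((2 * T + 1) * W) ^ (Fintype.card ι) * ε := by
  have hS0 : (0 : ℝ) < S.card := by exact_mod_cast hS.card_pos
  have e1 : (((∑ b ∈ S, ∏ i, g i (q i * Z b)) / S.card - ∫ x, ∏ i, g i (q i * x) ∂U : ℝ) : ℂ) =
      ∑ p ∈ Fintype.piFinset (fun _ : ι => Finset.Icc (-(T : ℤ)) T),
        (∏ i, w i (p i)) * ((∑ b ∈ S, ee ((fr q p : ℝ) * Z b)) / S.card - if fr q p = 0 then 1 else 0) := by
    rw [Complex.ofReal_sub, Complex.ofReal_div, ← integral_complex_ofReal, Complex.ofReal_sum]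
    simp only [G_exp q T g w hg]
    rw [integral_finsetSum _ (fun p _ => ?_)]
    · rw [Finset.sum_comm, Finset.sum_div, ← Finset.sum_sub_distrib]
      refine Finset.sum_congr rfl fun p _ => ?_
      rw [integral_const_mul, int_ee', ← Finset.mul_sum]
      push_cast
      ring
    · exact (cont_int (cont_ee.comp (continuous_const.mul continuous_id))).const_mul _
  rw [← Real.norm_eq_abs, ← Complex.norm_real, e1]
  refine (norm_sum_le _ _).trans ?_
  have hcard : ((Fintype.piFinset (fun _ : ι => Finset.Icc (-(T : ℤ)) T)).card : ℝ) =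
      (2 * T + 1) ^ (Fintype.card ι) := by
    rw [Fintype.card_piFinset, Finset.prod_const, Finset.card_univ, Int.card_Icc]
    have : ((T : ℤ) + 1 - -(T : ℤ)).toNat = 2 * T + 1 := by omega
    rw [this]
    push_cast
    rfl
  calc _ ≤ ∑ p ∈ Fintype.piFinset (fun _ : ι => Finset.Icc (-(T : ℤ)) T), (W ^ (Fintype.card ι) * ε) := by
        refine Finset.sum_le_sum fun p hp => ?_
        rw [Fintype.mem_piFinset] at hp
        rw [norm_mul, norm_prod]
        apply mul_le_mul _ _ (norm_nonneg _) (by positivity)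
        · calc ∏ i, ‖w i (p i)‖ ≤ ∏ i : ι, W :=
              Finset.prod_le_prod (fun _ _ => norm_nonneg _) fun i _ => hw i _
            _ = _ := by rw [Finset.prod_const, Finset.card_univ]
        · by_cases h0 : fr q p = 0
          · rw [if_pos h0, h0]
            simp only [Int.cast_zero, zero_mul, ee_zero, Finset.sum_const, nsmul_eq_mul, mul_one]
            rw [div_self (by exact_mod_cast hS0.ne'), sub_self, norm_zero]
            exact hε
          · rw [if_neg h0, sub_zero, norm_div, Complex.norm_natCast, div_le_iff₀ hS0]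
            refine hX p (fun i => ?_) h0
            have := Finset.mem_Icc.1 (hp i)
            rw [abs_le]
            exact this
    _ = _ := by
        rw [Finset.sum_const, nsmul_eq_mul, hcard, mul_pow]
        ring

end Pool.Agent.X121.ZS
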