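import Pool.Agent.X121.ZS.Tv2

set_option autoImplicit false

namespace Pool.Agent.X121.ZS

open Finset Filter MeasureTheory Pool.Agent.X121.AB Pool.Agent.X121.TV
open Pool.Agent.Y93.VK (ee ee_add norm_ee ee_zero ee_neg ee_eq)

theorem cl_iff {ι : Type} (m : ι → ℕ) (q : ι → ℤ) (x : ℝ) (A : ι → ℕ) :
    cl m q x = A ↔ ∀ i, (A i : ℝ) ≤ m i * Int.fract ((q i : ℝ) * x) ∧
      m i * Int.fract ((q i : ℝ) * x) < (A i : ℝ) + 1 := by
  rw [funext_iff]
  refine forall_congr' fun i => ?_
  have h0 : 0 ≤ (m i : ℝ) * Int.fract ((q i : ℝ) * x) := by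
    have := Int.fract_nonneg ((q i : ℝ) * x); positivity
  rw [← Nat.floor_eq_iff h0]
  rfl

open Classical in
/-- the number of the points in a set of cells -/
theorem count_cells {ι : Type} [Fintype ι] (S : Finset ℕ) (Z : ℕ → ℝ) (q : ι → ℤ)
    {m : ι → ℕ} (hm : ∀ i, 1 ≤ m i) (E : Set (ι → ℕ)) :
    ((S.filter fun b => cl m q (Z b) ∈ E).card : ℝ) =
      ∑ A ∈ (bx m).filter (· ∈ E), ((S.filter fun b => cl m q (Z b) = A).card : ℝ) := by
  have h1 := Finset.card_eq_sum_card_fiberwise (s := S.filter fun b => cl m q (Z b) ∈ E)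
    (t := (bx m).filter (· ∈ E)) (f := fun b => cl m q (Z b)) (by
      intro b hb
      have hb' := (Finset.mem_filter.1 (Finset.mem_coe.1 hb)).2
      exact Finset.mem_coe.2 (Finset.mem_filter.2 ⟨cl_mem hm q _, hb'⟩))
  rw [h1]
  push_cast
  refine Finset.sum_congr rfl fun A hA => ?_
  congr 2
  ext b
  simp only [Finset.mem_filter]
  constructor
  · rintro ⟨⟨h1, -⟩, h3⟩
    exact ⟨h1, h3⟩
  · rintro ⟨h1, h3⟩
    exact ⟨⟨h1, h3 ▸ (Finset.mem_filter.1 hA).2⟩, h3⟩

open Classical in
theorem meas_cells {ι : Type} [Fintype ι] (q : ι → ℤ) {m : ι → ℕ} (hm : ∀ i, 1 ≤ m i)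
    (E : Set (ι → ℕ)) :
    U.real {x | cl m q x ∈ E} = ∑ A ∈ (bx m).filter (· ∈ E), U.real {x | cl m q x = A} := by
  have e : {x | cl m q x ∈ E} = ⋃ A ∈ (bx m).filter (· ∈ E), {x | cl m q x = A} := by
    ext x
    simp only [Set.mem_ofPred_eq, Set.mem_iUnion, Finset.mem_filter]
    constructor
    · intro h
      exact ⟨_, ⟨cl_mem hm q x, h⟩, rfl⟩
    · rintro ⟨A, ⟨-, h2⟩, h3⟩
      exact h3 ▸ h2
  rw [e, measureReal_biUnion_finset]
  · intro A _ B _ hAB
    rw [Function.onFun, Set.disjoint_left]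
    intro x hx hx'
    exact hAB ((show cl m q x = A from hx).symm.trans (show cl m q x = B from hx'))
  · intro A _
    exact set_meas m q {A}

open Classical in
/-- **total variation**, one dimension -/
theorem tv1 {ι : Type} [Fintype ι] (S : Finset ℕ) (hS : S.Nonempty) (Z : ℕ → ℝ)
    (q : ι → ℤ) (hq : ∀ i, q i ≠ 0) (m : ι → ℕ) (hm : ∀ i, 1 ≤ m i) (T : ℕ) (hT : 1 ≤ T)
    {δ ε : ℝ} (hδ : 0 < δ) (hmδ : ∀ i, m i * δ ≤ 1) (hmT : ∀ i, m i / (δ * T) ≤ 1 / 2)
    (hε : 0 ≤ ε) (hX : ∀ h : ι → ℤ, (∀ i, |h i| ≤ T) → fr q h ≠ 0 →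
      ‖∑ b ∈ S, ee ((fr q h : ℝ) * Z b)‖ ≤ ε * S.card) (E : Set (ι → ℕ)) :
    |((S.filter fun b => cl m q (Z b) ∈ E).card : ℝ) / S.card - U.real {x | cl m q x ∈ E}| ≤
      5 ^ (Fintype.card ι) * ∑ i, m i * (δ + 1 / (δ * T)) +
        (∏ i, (m i : ℝ)) * (((2 * T + 1) * (4 / δ)) ^ (Fintype.card ι) * ε) := by
  have hS0 : (0 : ℝ) < S.card := by exact_mod_cast hS.card_pos
  have hT0 : (0 : ℝ) < T := by exact_mod_cast hT
  have hfam := fun i => maj_fam (m i) T (hm i) hT hδ (hmδ i) (hmT i)
  choose g w h1 h2 h3 h4 h5 h6 h7 using hfam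
  have hB : ∀ A ∈ bx m, ∀ i, A i < m i := by
    intro A hA i
    rw [bx, Fintype.mem_piFinset] at hA
    exact Finset.mem_range.1 (hA i)
  have hcont : ∀ A ∈ bx m, Continuous fun x : ℝ => ∏ i, g i (A i) (q i * x) := by
    intro A hA
    refine continuous_finsetProd _ fun i _ => ?_
    exact (h6 i (A i) (hB A hA i)).comp (continuous_const.mul continuous_id)
  have hnn : ∀ A ∈ bx m, ∀ x : ℝ, 0 ≤ ∏ i, g i (A i) (q i * x) := by
    intro A hA x
    exact Finset.prod_nonneg fun i _ => h2 i (A i) (hB A hA i) _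
  have hind : ∀ A ∈ bx m, ∀ x : ℝ, cl m q x = A → 1 ≤ ∏ i, g i (A i) (q i * x) := by
    intro A hA x hx
    rw [cl_iff] at hx
    calc (1 : ℝ) = ∏ i : ι, (1 : ℝ) := by simp
      _ ≤ ∏ i, g i (A i) (q i * x) := by
          refine Finset.prod_le_prod (fun _ _ => by norm_num) fun i _ => ?_
          have hm0 : (0 : ℝ) < m i := by exact_mod_cast hm i
          refine h3 i (A i) (hB A hA i) _ ?_ ?_
          · rw [div_le_iff₀ hm0, mul_comm]; exact (hx i).1
          · rw [lt_div_iff₀ hm0, mul_comm]; exact (hx i).2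
  obtain ⟨r, hr⟩ : ∃ r : ℝ, r = ((2 * T + 1) * (4 / δ)) ^ (Fintype.card ι) * ε := ⟨_, rfl⟩
  have hr0 : 0 ≤ r := by rw [hr]; positivity
  -- the family of a cell
  have hp : ∀ A ∈ bx m, ((S.filter fun b => cl m q (Z b) = A).card : ℝ) / S.card ≤
      (∫ x, ∏ i, g i (A i) (q i * x) ∂U) + r := by
    intro A hA
    have hd := G_diff S hS Z q T (fun i => g i (A i)) (fun i => w i (A i))
      (fun i t => h1 i (A i) (hB A hA i) t) (W := 4 / δ) (by positivity) hε
      (fun i h => h5 i (A i) (hB A hA i) h) hX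
    have hc : ((S.filter fun b => cl m q (Z b) = A).card : ℝ) ≤ ∑ b ∈ S, ∏ i, g i (A i) (q i * Z b) := by
      rw [Finset.card_filter]
      push_cast
      refine Finset.sum_le_sum fun b _ => ?_
      split_ifs with h
      · exact hind A hA _ h
      · exact hnn A hA _
    have hc' : ((S.filter fun b => cl m q (Z b) = A).card : ℝ) / S.card ≤
        (∑ b ∈ S, ∏ i, g i (A i) (q i * Z b)) / S.card := by gcongr
    have := (abs_le.1 hd).2
    rw [hr]
    linarith
  have hqq : ∀ A ∈ bx m, U.real {x | cl m q x = A} ≤ ∫ x, ∏ i, g i (A i) (q i * x) ∂U := by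
    intro A hA
    have hms : MeasurableSet {x | cl m q x = A} := set_meas m q {A}
    rw [← integral_indicator_one hms]
    apply integral_mono_of_nonneg
    · exact Eventually.of_forall fun x => Set.indicator_nonneg (fun _ _ => zero_le_one) x
    · exact cont_int (hcont A hA)
    · refine Eventually.of_forall fun x => ?_
      by_cases hx : cl m q x = A
      · rw [Set.indicator_of_mem (by exact hx)]
        exact hind A hA x hx
      · rw [Set.indicator_of_notMem (by exact hx)]
        exact hnn A hA x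
  -- the sum of the integrals
  have hgi : ∀ i, ∀ a < m i, ∫ x, g i a (q i * x) ∂U = 1 / m i + δ + 1 / (δ * T) := by
    intro i a ha
    have e1 : ((∫ x, g i a (q i * x) ∂U : ℝ) : ℂ) = ((1 / m i + δ + 1 / (δ * T) : ℝ) : ℂ) := by
      rw [← integral_complex_ofReal, ← h4 i a ha]
      simp only [h1 i a ha]
      rw [integral_finsetSum _ (fun p _ => ?_)]
      · rw [Finset.sum_eq_single_of_mem 0 (by rw [Finset.mem_Icc]; omega)]
        · simp [ee_zero]
        · intro b _ hb
          rw [integral_const_mul]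
          have : ∀ x : ℝ, (b : ℝ) * ((q i : ℝ) * x) = ((b * q i : ℤ) : ℝ) * x := by
            intro x; push_cast; ring
          simp only [this]
          rw [int_ee _ (mul_ne_zero hb (hq i)), mul_zero]
      · exact (cont_int (cont_ee.comp (continuous_const.mul
          (continuous_const.mul continuous_id)))).const_mul _
    exact_mod_cast e1
  obtain ⟨R, hR⟩ : ∃ R : ι → ℝ → ℝ, R = fun i x => ∑ a ∈ Finset.range (m i), g i a (q i * x) - 1 :=
    ⟨_, rfl⟩
  have hR1 : ∀ i x, R i x ≤ 4 := by
    intro i x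
    have := h7 i (q i * x)
    rw [hR]
    linarith
  have hR0 : ∀ i x, 0 ≤ R i x := by
    intro i x
    have hm0 : (0 : ℝ) < m i := by exact_mod_cast hm i
    obtain ⟨a, ha⟩ : ∃ a : ℕ, a = ⌊(m i : ℝ) * Int.fract ((q i : ℝ) * x)⌋₊ := ⟨_, rfl⟩
    have h0 : 0 ≤ (m i : ℝ) * Int.fract ((q i : ℝ) * x) := by
      have := Int.fract_nonneg ((q i : ℝ) * x); positivity
    have ha' := (Nat.floor_eq_iff h0).1 ha.symm
    have ham : a < m i := by
      rw [ha, Nat.floor_lt h0]
      have := Int.fract_lt_one ((q i : ℝ) * x)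
      nlinarith
    have h8 := h3 i a ham (q i * x) (by rw [div_le_iff₀ hm0, mul_comm]; exact ha'.1)
      (by rw [lt_div_iff₀ hm0, mul_comm]; exact ha'.2)
    have h9 : g i a (q i * x) ≤ ∑ a ∈ Finset.range (m i), g i a (q i * x) :=
      Finset.single_le_sum (fun b hb => h2 i b (Finset.mem_range.1 hb) _) (Finset.mem_range.2 ham)
    rw [hR]
    linarith
  have hRc : ∀ i, Continuous (R i) := by
    intro i
    rw [hR]
    refine Continuous.sub ?_ continuous_const
    exact continuous_finsetSum _ fun a ha => (h6 i a (Finset.mem_range.1 ha)).comp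
      (continuous_const.mul continuous_id)
  have hRi : ∀ i, ∫ x, R i x ∂U = m i * (δ + 1 / (δ * T)) := by
    intro i
    have hm0 : (m i : ℝ) ≠ 0 := by have := hm i; positivity
    rw [hR]
    simp only
    rw [integral_sub _ (integrable_const _), integral_finsetSum _ (fun a ha => ?_)]
    · rw [Finset.sum_congr rfl fun a ha => hgi i a (Finset.mem_range.1 ha), Finset.sum_const,
        Finset.card_range, nsmul_eq_mul]
      simp
      field_simp
      ring
    · exact cont_int ((h6 i a (Finset.mem_range.1 ha)).comp (continuous_const.mul continuous_id))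
    · exact cont_int (continuous_finsetSum _ fun a ha => (h6 i a (Finset.mem_range.1 ha)).comp
        (continuous_const.mul continuous_id))
  have hg : ∑ A ∈ bx m, ∫ x, ∏ i, g i (A i) (q i * x) ∂U ≤
      1 + 5 ^ (Fintype.card ι) * ∑ i, m i * (δ + 1 / (δ * T)) := by
    rw [← integral_finsetSum _ (fun A hA => cont_int (hcont A hA))]
    have e1 : ∀ x : ℝ, ∑ A ∈ bx m, ∏ i, g i (A i) (q i * x) = ∏ i, (1 + R i x) := by
      intro x
      have : ∀ i, 1 + R i x = ∑ a ∈ Finset.range (m i), g i a (q i * x) := by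
        intro i; rw [hR]; ring
      simp only [this]
      rw [Finset.prod_univ_sum]
      rfl
    simp only [e1]
    calc ∫ x, ∏ i, (1 + R i x) ∂U ≤ ∫ x, (1 + 5 ^ (Fintype.card ι) * ∑ i, R i x) ∂U := by
          apply integral_mono
          · exact cont_int (continuous_finsetProd _ fun i _ => continuous_const.add (hRc i))
          · exact cont_int (continuous_const.add (continuous_const.mul
              (continuous_finsetSum _ fun i _ => hRc i)))
          · intro x
            have := prod_tel Finset.univ (fun i => R i x) (fun i _ => hR0 i x) (fun i _ => hR1 i x)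
            rw [Finset.card_univ] at this
            simp only
            linarith
      _ = _ := by
          have hI : Integrable (fun x => ∑ i, R i x) U := cont_int (continuous_finsetSum _ fun i _ => hRc i)
          have hI2 : Integrable (fun x => 5 ^ (Fintype.card ι) * ∑ i, R i x) U := hI.const_mul _
          rw [integral_add (integrable_const _) hI2, integral_const_mul,
            integral_finsetSum _ (fun i _ => cont_int (hRc i))]
          simp only [hRi]
          simp
  -- conclusion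
  have hsum1 : ∑ A ∈ bx m, ((S.filter fun b => cl m q (Z b) = A).card : ℝ) / S.card = 1 := by
    have := count_cells S Z q hm Set.univ
    simp only [Set.mem_univ, Finset.filter_true] at this
    rw [← Finset.sum_div, ← this, div_self hS0.ne']
  have hsum2 : ∑ A ∈ bx m, U.real {x | cl m q x = A} = 1 := by
    have := meas_cells q hm Set.univ
    simp only [Set.mem_univ, Finset.filter_true] at this
    rw [← this]
    have : {x : ℝ | True} = Set.univ := by ext; simp
    rw [this]
    exact probReal_univ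
  have hmain := tv_abs (bx m) _ _ _ hr0 hp hqq hg hsum1 hsum2 ((bx m).filter (· ∈ E))
    (Finset.filter_subset _ _)
  rw [count_cells S Z q hm E, Finset.sum_div, meas_cells q hm E]
  refine hmain.trans (le_of_eq ?_)
  have hcard : ((bx m).card : ℝ) = ∏ i, (m i : ℝ) := by
    rw [bx, Fintype.card_piFinset]
    simp
  rw [hcard, hr]

end Pool.Agent.X121.ZS
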